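import Mathlib
import Pool.Agent.D0H46.SC.Final

namespace Pool.Agent.D0H46.SE

open Finset Pool.Agent.D0H46.SC

set_option linter.unusedSectionVars false

section
variable {p : ℕ} [hp : Fact p.Prime] {P : ℕ}

theorem cast_num_Zp (k : ℕ) : (k : ℚ) ∈ Zp p := natCast_Zp k

/-- `H_P^{(4)} = 0` -/
theorem H4_zero (hP : p = 2 * P + 1) (hP3 : 3 ≤ P) : Hf (ZMod p) 4 P = 0 := by
  have h1 : ∑ y : ZMod p, y^(p-5) = 0 := psum_low (by omega)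
  rw [sumZ] at h1
  rw [show range p = range (2 * P + 1) by rw [← hP], sum_range_succ'] at h1
  have h0 : ((0 : ℕ) : ZMod p)^(p-5) = 0 := by
    rw [Nat.cast_zero, zero_pow]; omega
  rw [h0, add_zero] at h1
  have h3 : ∀ i : ℕ, i < 2 * P → ((i + 1 : ℕ) : ZMod p)^(p-5) = (((i + 1 : ℕ) : ZMod p)⁻¹)^4 := by
    intro i hi
    have hn : ((i + 1 : ℕ) : ZMod p) ≠ 0 := cast_ne (by omega) (by omega)
    have := ZMod.pow_card_sub_one_eq_one hn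
    rw [show p - 1 = (p - 5) + 4 by omega, pow_add] at this
    rw [inv_pow]
    exact eq_inv_of_mul_eq_one_left this
  rw [two_mul, sum_range_add] at h1
  have h4 : ∑ x ∈ range P, ((P + x + 1 : ℕ) : ZMod p)^(p-5) = ∑ x ∈ range P, ((x + 1 : ℕ) : ZMod p)^(p-5) := by
    rw [← sum_range_reflect]
    apply sum_congr rfl
    intro x hx
    have hx := mem_range.mp hx
    rw [cast_compl (x := P + (P - 1 - x) + 1) (y := x + 1) (by omega), Even.neg_pow]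
    exact ⟨P - 2, by omega⟩
  rw [h4] at h1
  have h5 : ∑ x ∈ range P, ((x + 1 : ℕ) : ZMod p)^(p-5) = Hf (ZMod p) 4 P := by
    unfold Hf
    apply sum_congr rfl
    intro x hx
    exact h3 x (by have := mem_range.mp hx; omega)
  rw [h5] at h1
  have h6 : ((2 : ℕ) : ZMod p) * Hf (ZMod p) 4 P = 0 := by push_cast; linear_combination h1
  rcases mul_eq_zero.mp h6 with h | h
  · exact absurd h (cast_ne (by omega) (by omega))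
  · exact h

theorem Hq4 (hP : p = 2 * P + 1) (hP3 : 3 ≤ P) : Hq 4 P ∈ I p 1 := by
  apply rd_zero (Hq_Zp 4 P (by omega))
  rw [rd_Hq 4 P (by omega), H4_zero hP hP3]

theorem Hq2 (hP : p = 2 * P + 1) (hP3 : 3 ≤ P) : Hq 2 P ∈ I p 1 := by
  apply rd_zero (Hq_Zp 2 P (by omega))
  rw [rd_Hq 2 P (by omega), H2_zero hP (by omega)]

theorem pr (r : ℕ) (h0 : 0 < r) (h1 : r < p) :
    ((p - r : ℕ) : ℚ)⁻¹ = -(r : ℚ)⁻¹ + p * (r : ℚ)⁻¹ * ((p - r : ℕ) : ℚ)⁻¹ := by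
  have hr : (r : ℚ) ≠ 0 := by positivity
  have hpr : ((p - r : ℕ) : ℚ) ≠ 0 := by
    have : p - r ≠ 0 := by omega
    exact_mod_cast this
  have e : (p : ℚ) = ((p - r : ℕ) : ℚ) + r := by
    rw [Nat.cast_sub h1.le]; ring
  generalize ((p - r : ℕ) : ℚ) = x at *
  rw [e]
  field_simp
  ring

theorem nmem (k : ℕ) [k.AtLeastTwo] : (OfNat.ofNat k : ℚ) ∈ Zp p := by
  have := natCast_Zp (p := p) k
  exact_mod_cast this

theorem exp1 {x y : ℚ} (hx : x ∈ Zp p) (hy : y ∈ Zp p) (h : y = -x + p * x * y) :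
    x + y - (- (p * x^2) - p^2 * x^3 - p^3 * x^4) ∈ I p 4 := by
  refine ⟨x^4 * y, mul_mem (pow_mem hx _) hy, ?_⟩
  linear_combination (1 + p*x + p^2*x^2 + p^3*x^3) * h

theorem exp2 {x y : ℚ} (hx : x ∈ Zp p) (hy : y ∈ Zp p) (h : y = -x + p * x * y) :
    y^2 - (x^2 + 2 * p * x^3 + 3 * p^2 * x^4) ∈ I p 3 := by
  refine ⟨x^3 * y^2 * (4 - 3 * (p * x)), mul_mem (mul_mem (pow_mem hx _) (pow_mem hy _))
    (sub_mem (nmem 4) (mul_mem (nmem 3) (mul_mem (natCast_Zp p) hx))), ?_⟩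
  linear_combination (1 + 2 * (p*x) + 3 * (p*x)^2) * (y * (1 - p * x) - x) * h

theorem exp3 {x y : ℚ} (hx : x ∈ Zp p) (hy : y ∈ Zp p) (h : y = -x + p * x * y) :
    y^3 + (x^3 + 3 * p * x^4) ∈ I p 2 := by
  refine ⟨x^2 * y^3 * (6 - 8 * (p * x) + 3 * (p * x)^2), mul_mem (mul_mem (pow_mem hx _) (pow_mem hy _))
    (add_mem (sub_mem (nmem 6) (mul_mem (nmem 8) (mul_mem (natCast_Zp p) hx)))
      (mul_mem (nmem 3) (pow_mem (mul_mem (natCast_Zp p) hx) _))), ?_⟩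
  linear_combination (1 + 3 * (p*x)) * ((y * (1 - p * x))^2 - y * (1 - p * x) * x + x^2) * h

theorem exp4 {x y : ℚ} (hx : x ∈ Zp p) (hy : y ∈ Zp p) (h : y = -x + p * x * y) :
    y^4 - x^4 ∈ I p 1 := by
  refine ⟨x * y^4 * (4 - 6 * (p * x) + 4 * (p * x)^2 - (p * x)^3), mul_mem (mul_mem hx (pow_mem hy _))
    (sub_mem (add_mem (sub_mem (nmem 4) (mul_mem (nmem 6) (mul_mem (natCast_Zp p) hx)))
      (mul_mem (nmem 4) (pow_mem (mul_mem (natCast_Zp p) hx) _))) (pow_mem (mul_mem (natCast_Zp p) hx) _)), ?_⟩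
  linear_combination (y * (1 - p * x) - x) * ((y * (1 - p * x))^2 + x^2) * h

theorem inv2 (hP : p = 2 * P + 1) (hP1 : 1 ≤ P) (k : ℕ) : (((2^k : ℕ) : ℚ))⁻¹ ∈ Zp p := by
  apply inv_Zp
  intro h
  have := hp.out.dvd_of_dvd_pow h
  have := Nat.le_of_dvd (by norm_num) this
  omega

/-- sum over even reciprocals -/
theorem evsum (e : ℕ) : ∑ t ∈ range P, (((2 * (t + 1) : ℕ) : ℚ)⁻¹)^e = (2^e)⁻¹ * Hq e P := by
  unfold Hq
  rw [mul_sum]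
  apply sum_congr rfl
  intro v _
  rw [Nat.cast_mul, mul_inv, mul_pow, Nat.cast_ofNat, inv_pow (2 : ℚ)]

theorem H1_eq (hP : p = 2 * P + 1) :
    Hq 1 (2 * P) + (p * Hq 2 P + p^2 * Hq 3 P + p^3 * Hq 4 P) ∈ I p 4 := by
  have e1 : Hq 1 (2 * P) + (p * Hq 2 P + p^2 * Hq 3 P + p^3 * Hq 4 P) = ∑ t ∈ range P,
      ((((t + 1 : ℕ) : ℚ)⁻¹) + (((p - (t + 1) : ℕ) : ℚ)⁻¹) - (- (p * (((t + 1 : ℕ) : ℚ)⁻¹)^2)
        - p^2 * (((t + 1 : ℕ) : ℚ)⁻¹)^3 - p^3 * (((t + 1 : ℕ) : ℚ)⁻¹)^4)) := by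
    unfold Hq
    rw [two_mul, sum_range_add, ← sum_range_reflect (fun x => (((P + x + 1 : ℕ) : ℚ)⁻¹)^1), sum_sub_distrib,
      sum_sub_distrib, sum_sub_distrib, sum_add_distrib, sum_neg_distrib, ← mul_sum, ← mul_sum, ← mul_sum]
    have e2 : ∑ j ∈ range P, (((P + (P - 1 - j) + 1 : ℕ) : ℚ)⁻¹)^1 = ∑ t ∈ range P, (((p - (t + 1) : ℕ) : ℚ)⁻¹) := by
      apply sum_congr rfl
      intro t ht
      have ht := mem_range.mp ht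
      rw [show P + (P - 1 - t) + 1 = p - (t + 1) by omega, pow_one]
    rw [e2]
    simp only [pow_one]
    ring
  rw [e1]
  apply sum_mem
  intro t ht
  have ht := mem_range.mp ht
  exact exp1 (inv_Zp (nd (by omega) (by omega))) (inv_Zp (nd (by omega) (by omega))) (pr _ (by omega) (by omega))

theorem Hb (hP : p = 2 * P + 1) (hP3 : 3 ≤ P) : 6 * Hq 2 P + 7 * p * Hq 3 P ∈ I p 3 := by
  set Fu : ℚ := ∑ i ∈ range (2 * P), (((i + 1 : ℕ) : ℚ)⁻¹)^2 with hFu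
  have h1 : Fu - (2 * Hq 2 P + 2 * p * Hq 3 P + 3 * p^2 * Hq 4 P) ∈ I p 3 := by
    have e1 : Fu - (2 * Hq 2 P + 2 * p * Hq 3 P + 3 * p^2 * Hq 4 P) = ∑ t ∈ range P,
        ((((p - (t + 1) : ℕ) : ℚ)⁻¹)^2 - ((((t + 1 : ℕ) : ℚ)⁻¹)^2 + 2 * p * (((t + 1 : ℕ) : ℚ)⁻¹)^3
          + 3 * p^2 * (((t + 1 : ℕ) : ℚ)⁻¹)^4)) := by
      rw [hFu, two_mul, sum_range_add, ← sum_range_reflect (fun x => (((P + x + 1 : ℕ) : ℚ)⁻¹)^2), sum_sub_distrib,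
        sum_add_distrib, sum_add_distrib, ← mul_sum, ← mul_sum]
      have e2 : ∑ j ∈ range P, (((P + (P - 1 - j) + 1 : ℕ) : ℚ)⁻¹)^2 = ∑ t ∈ range P, (((p - (t + 1) : ℕ) : ℚ)⁻¹)^2 := by
        apply sum_congr rfl
        intro t ht
        have ht := mem_range.mp ht
        rw [show P + (P - 1 - t) + 1 = p - (t + 1) by omega]
      rw [e2]
      unfold Hq
      ring
    rw [e1]
    apply sum_mem
    intro t ht
    have ht := mem_range.mp ht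
    exact exp2 (inv_Zp (nd (by omega) (by omega))) (inv_Zp (nd (by omega) (by omega))) (pr _ (by omega) (by omega))
  have h2 : Fu - (2⁻¹ * Hq 2 P + 4⁻¹ * p * Hq 3 P + 3 * 16⁻¹ * p^2 * Hq 4 P) ∈ I p 3 := by
    have e1 : Fu - (2⁻¹ * Hq 2 P + 4⁻¹ * p * Hq 3 P + 3 * 16⁻¹ * p^2 * Hq 4 P) = ∑ t ∈ range P,
        ((((p - (2 * (t + 1)) : ℕ) : ℚ)⁻¹)^2 - ((((2 * (t + 1) : ℕ) : ℚ)⁻¹)^2 + 2 * p * (((2 * (t + 1) : ℕ) : ℚ)⁻¹)^3
          + 3 * p^2 * (((2 * (t + 1) : ℕ) : ℚ)⁻¹)^4)) := by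
      rw [hFu, split_parity, sum_add_distrib, ← sum_range_reflect (fun x => (((2 * x + 1 : ℕ) : ℚ)⁻¹)^2), sum_sub_distrib,
        sum_add_distrib, sum_add_distrib, ← mul_sum, ← mul_sum, evsum, evsum, evsum]
      have e2 : ∑ j ∈ range P, (((2 * (P - 1 - j) + 1 : ℕ) : ℚ)⁻¹)^2 = ∑ t ∈ range P, (((p - 2 * (t + 1) : ℕ) : ℚ)⁻¹)^2 := by
        apply sum_congr rfl
        intro t ht
        have ht := mem_range.mp ht
        rw [show 2 * (P - 1 - t) + 1 = p - 2 * (t + 1) by omega]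
      have e3 : ∑ v ∈ range P, (((2 * v + 1 + 1 : ℕ) : ℚ)⁻¹)^2 = (2^2)⁻¹ * Hq 2 P := by
        rw [← evsum]
        rfl
      rw [e2, e3]
      ring
    rw [e1]
    apply sum_mem
    intro t ht
    have ht := mem_range.mp ht
    exact exp2 (inv_Zp (nd (by omega) (by omega))) (inv_Zp (nd (by omega) (by omega))) (pr _ (by omega) (by omega))
  have h4 : (p : ℚ)^2 * Hq 4 P ∈ I p 3 := by
    obtain ⟨u, hu, e⟩ := Hq4 hP hP3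
    exact ⟨u, hu, by rw [e]; ring⟩
  have h3 : (4 : ℚ) * ((Fu - (2⁻¹ * Hq 2 P + 4⁻¹ * p * Hq 3 P + 3 * 16⁻¹ * p^2 * Hq 4 P)) -
      (Fu - (2 * Hq 2 P + 2 * p * Hq 3 P + 3 * p^2 * Hq 4 P))) ∈ I p 3 :=
    I_mul_left (nmem 4) (sub_mem h2 h1)
  have h16 : (45 : ℚ) * ((2^2 : ℕ) : ℚ)⁻¹ * (p^2 * Hq 4 P) ∈ I p 3 :=
    I_mul_left (mul_mem (nmem 45) (inv2 hP (by omega) 2)) h4
  have e : 6 * Hq 2 P + 7 * p * Hq 3 P = (4 : ℚ) * ((Fu - (2⁻¹ * Hq 2 P + 4⁻¹ * p * Hq 3 P + 3 * 16⁻¹ * p^2 * Hq 4 P)) -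
      (Fu - (2 * Hq 2 P + 2 * p * Hq 3 P + 3 * p^2 * Hq 4 P))) - (45 : ℚ) * ((2^2 : ℕ) : ℚ)⁻¹ * (p^2 * Hq 4 P) := by
    push_cast
    ring
  rw [e]
  exact sub_mem h3 h16

theorem Ha (hP : p = 2 * P + 1) (hP3 : 3 ≤ P) : 6 * Hq 1 (2 * P) - p^2 * Hq 3 P ∈ I p 4 := by
  have h1 := I_mul_left (nmem 6) (H1_eq (p := p) (P := P) hP)
  have h2 : (p : ℚ) * (6 * Hq 2 P + 7 * p * Hq 3 P) ∈ I p 4 := by
    obtain ⟨u, hu, e⟩ := Hb hP hP3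
    exact ⟨u, hu, by rw [e]; ring⟩
  have h4 : (6 : ℚ) * p^3 * Hq 4 P ∈ I p 4 := by
    obtain ⟨u, hu, e⟩ := Hq4 hP hP3
    exact ⟨6 * u, mul_mem (nmem 6) hu, by rw [e]; ring⟩
  have e : 6 * Hq 1 (2 * P) - p^2 * Hq 3 P = 6 * (Hq 1 (2 * P) + (p * Hq 2 P + p^2 * Hq 3 P + p^3 * Hq 4 P))
      - (p : ℚ) * (6 * Hq 2 P + 7 * p * Hq 3 P) - (6 : ℚ) * p^3 * Hq 4 P := by ring
  rw [e]
  exact sub_mem (sub_mem h1 h2) h4

/-- `O_e = ∑_{j odd < p} j^{-e}` -/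
def Oe (e P : ℕ) : ℚ := ∑ t ∈ range P, (((2 * t + 1 : ℕ) : ℚ)⁻¹)^e

theorem Oe_refl (hP : p = 2 * P + 1) (e : ℕ) : Oe e P = ∑ t ∈ range P, (((p - 2 * (t + 1) : ℕ) : ℚ)⁻¹)^e := by
  unfold Oe
  rw [← sum_range_reflect (fun x => (((2 * x + 1 : ℕ) : ℚ)⁻¹)^e)]
  apply sum_congr rfl
  intro t ht
  have ht := mem_range.mp ht
  rw [show 2 * (P - 1 - t) + 1 = p - 2 * (t + 1) by omega]

theorem O4 (hP : p = 2 * P + 1) (hP3 : 3 ≤ P) : Oe 4 P ∈ I p 1 := by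
  have h1 : Oe 4 P - (2^4)⁻¹ * Hq 4 P ∈ I p 1 := by
    rw [Oe_refl hP, ← evsum, ← sum_sub_distrib]
    apply sum_mem
    intro t ht
    have ht := mem_range.mp ht
    exact exp4 (inv_Zp (nd (by omega) (by omega))) (inv_Zp (nd (by omega) (by omega))) (pr _ (by omega) (by omega))
  have h2 : (((2^4 : ℕ) : ℚ))⁻¹ * Hq 4 P ∈ I p 1 := I_mul_left (inv2 hP (by omega) 4) (Hq4 hP hP3)
  have e : Oe 4 P = (Oe 4 P - (2^4)⁻¹ * Hq 4 P) + (((2^4 : ℕ) : ℚ))⁻¹ * Hq 4 P := by push_cast; ring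
  rw [e]
  exact add_mem h1 h2

theorem O3 (hP : p = 2 * P + 1) (hP3 : 3 ≤ P) : Oe 3 P + 8⁻¹ * Hq 3 P ∈ I p 2 := by
  have h1 : Oe 3 P + ((2^3)⁻¹ * Hq 3 P + 3 * p * ((2^4)⁻¹ * Hq 4 P)) ∈ I p 2 := by
    rw [Oe_refl hP, ← evsum, ← evsum, mul_sum, ← sum_add_distrib, ← sum_add_distrib]
    apply sum_mem
    intro t ht
    have ht := mem_range.mp ht
    exact exp3 (inv_Zp (nd (by omega) (by omega))) (inv_Zp (nd (by omega) (by omega))) (pr _ (by omega) (by omega))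
  have h2 : 3 * p * ((((2^4 : ℕ) : ℚ))⁻¹ * Hq 4 P) ∈ I p 2 := by
    obtain ⟨u, hu, e⟩ := Hq4 hP hP3
    refine ⟨3 * ((((2^4 : ℕ) : ℚ))⁻¹ * u), mul_mem (nmem 3) (mul_mem (inv2 hP (by omega) 4) hu), by rw [e]; ring⟩
  have e : Oe 3 P + 8⁻¹ * Hq 3 P = (Oe 3 P + ((2^3)⁻¹ * Hq 3 P + 3 * p * ((2^4)⁻¹ * Hq 4 P))) -
      3 * p * ((((2^4 : ℕ) : ℚ))⁻¹ * Hq 4 P) := by push_cast; ring
  rw [e]
  exact sub_mem h1 h2

end

end Pool.Agent.D0H46.SE
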