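import Mathlib
import Pool.Agent.D0H46.SE.Harm

namespace Pool.Agent.D0H46.SE

open Finset Pool.Agent.D0H46.SC

set_option linter.unusedSectionVars false

section
variable {p : ℕ} [hp : Fact p.Prime] {P : ℕ}

/-- pairs `1 ≤ i < j < p` -/
def Dp (p : ℕ) : Finset (ℕ × ℕ) := ((Ico 1 p) ×ˢ (Ico 1 p)).filter (fun x => x.1 < x.2)

theorem mem_Dp {x : ℕ × ℕ} : x ∈ Dp p ↔ 1 ≤ x.1 ∧ x.1 < x.2 ∧ x.2 < p := by
  unfold Dp
  simp only [mem_filter, mem_product, mem_Ico]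
  omega

/-- inverse in `ZMod p` -/
noncomputable def vi (p : ℕ) [Fact p.Prime] (i : ℕ) : ZMod p := ((i : ZMod p))⁻¹

theorem sum_pairs {A : Type*} [AddCommMonoid A] (f : ℕ → ℕ → A) :
    ∑ i ∈ Ico 1 p, ∑ j ∈ Ico 1 p, f i j =
      ∑ x ∈ Dp p, f x.1 x.2 + (∑ x ∈ Dp p, f x.2 x.1 + ∑ i ∈ Ico 1 p, f i i) := by
  rw [← sum_product', ← sum_filter_add_sum_filter_not ((Ico 1 p) ×ˢ (Ico 1 p)) (fun x => x.1 < x.2)]
  congr 1
  rw [← sum_filter_add_sum_filter_not (((Ico 1 p) ×ˢ (Ico 1 p)).filter (fun x => ¬ x.1 < x.2)) (fun x => x.2 < x.1)]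
  congr 1
  · refine sum_bij' (fun x _ => (x.2, x.1)) (fun x _ => (x.2, x.1)) ?_ ?_ ?_ ?_ ?_
    · intro x hx
      simp only [mem_filter, mem_product, mem_Ico] at hx
      rw [mem_Dp]
      simp only
      omega
    · intro x hx
      rw [mem_Dp] at hx
      simp only [mem_filter, mem_product, mem_Ico]
      omega
    · intro x _; rfl
    · intro x _; rfl
    · intro x _; rfl
  · refine sum_bij' (fun x _ => x.1) (fun i _ => (i, i)) ?_ ?_ ?_ ?_ ?_
    · intro x hx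
      simp only [mem_filter, mem_product, mem_Ico] at hx
      simp only [mem_Ico]
      omega
    · intro i hi
      simp only [mem_Ico] at hi
      simp only [mem_filter, mem_product, mem_Ico]
      omega
    · intro x hx
      simp only [mem_filter, mem_product, mem_Ico] at hx
      ext <;> simp only
      omega
    · intro i _; rfl
    · intro x hx
      simp only [mem_filter, mem_product, mem_Ico] at hx
      rw [show x.2 = x.1 by omega]

theorem sum_Dp {A : Type*} [AddCommMonoid A] (f : ℕ → ℕ → A) :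
    ∑ x ∈ Dp p, f x.1 x.2 = ∑ j ∈ Ico 1 p, ∑ i ∈ Ico 1 j, f i j := by
  rw [sum_sigma']
  refine sum_bij' (fun x _ => (⟨x.2, x.1⟩ : Σ _ : ℕ, ℕ)) (fun x _ => (x.2, x.1)) ?_ ?_ ?_ ?_ ?_
  · intro x hx
    rw [mem_Dp] at hx
    simp only [mem_sigma, mem_Ico]
    omega
  · intro x hx
    simp only [mem_sigma, mem_Ico] at hx
    rw [mem_Dp]
    simp only
    omega
  · intro x _; rfl
  · intro x _; rfl
  · intro x _; rfl

theorem refl_Dp {A : Type*} [AddCommMonoid A] (f : ℕ → ℕ → A) :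
    ∑ x ∈ Dp p, f x.1 x.2 = ∑ x ∈ Dp p, f (p - x.2) (p - x.1) := by
  refine sum_bij' (fun x _ => (p - x.2, p - x.1)) (fun x _ => (p - x.2, p - x.1)) ?_ ?_ ?_ ?_ ?_
  · intro x hx
    rw [mem_Dp] at *
    simp only
    omega
  · intro x hx
    rw [mem_Dp] at *
    simp only
    omega
  · intro x hx
    rw [mem_Dp] at hx
    ext <;> simp only <;> omega
  · intro x hx
    rw [mem_Dp] at hx
    ext <;> simp only <;> omega
  · intro x hx
    rw [mem_Dp] at hx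
    rw [show p - (p - x.1) = x.1 by omega, show p - (p - x.2) = x.2 by omega]

theorem shift_Dp {A : Type*} [AddCommMonoid A] (f : ℕ → ℕ → A) :
    ∑ x ∈ Dp p, f x.1 x.2 = ∑ x ∈ Dp p, f (x.2 - x.1) x.2 := by
  refine sum_bij' (fun x _ => (x.2 - x.1, x.2)) (fun x _ => (x.2 - x.1, x.2)) ?_ ?_ ?_ ?_ ?_
  · intro x hx
    rw [mem_Dp] at *
    simp only
    omega
  · intro x hx
    rw [mem_Dp] at *
    simp only
    omega
  · intro x hx
    rw [mem_Dp] at hx
    ext <;> simp only <;> omega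
  · intro x hx
    rw [mem_Dp] at hx
    ext <;> simp only <;> omega
  · intro x hx
    rw [mem_Dp] at hx
    rw [show x.2 - (x.2 - x.1) = x.1 by omega]

theorem vi_compl (i : ℕ) (h : i ≤ p) : vi p (p - i) = - vi p i := by
  unfold vi
  rw [cast_compl (x := p - i) (y := i) (by omega), inv_neg]

theorem sgn_compl (hP : p = 2 * P + 1) (i : ℕ) (h : i ≤ p) : (-1 : ZMod p)^(p - i) = - (-1)^i := by
  have h1 : (-1 : ZMod p)^(p - i) * (-1)^i = -1 := by
    rw [← pow_add, show p - i + i = 2 * P + 1 by omega, pow_succ, pow_mul]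
    norm_num
  have h2 : (-1 : ZMod p)^i * (-1)^i = 1 := by
    rw [← mul_pow]; norm_num
  calc (-1 : ZMod p)^(p - i) = (-1 : ZMod p)^(p - i) * ((-1)^i * (-1)^i) := by rw [h2, mul_one]
    _ = - (-1)^i := by rw [← mul_assoc, h1]; ring

theorem sgn_sub (m N : ℕ) (h : m ≤ N) : (-1 : ZMod p)^(N - m) = (-1)^N * (-1)^m := by
  obtain ⟨c, rfl⟩ := Nat.exists_eq_add_of_le h
  rw [show m + c - m = c by omega, pow_add]
  have h2 : (-1 : ZMod p)^m * (-1)^m = 1 := by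
    rw [← mul_pow]; norm_num
  linear_combination (-(-1 : ZMod p)^c) * h2

theorem vi_ne {i : ℕ} (h0 : 0 < i) (h1 : i < p) : (i : ZMod p) * vi p i = 1 :=
  mul_inv_cancel₀ (cast_ne h0 h1)

/-- partial fractions -/
theorem pf2 {m N : ℕ} (h0 : 0 < m) (h1 : m < N) (h2 : N < p) :
    vi p (N - m) * vi p m = vi p N * (vi p (N - m) + vi p m) := by
  have a1 := vi_ne (p := p) h0 (by omega)
  have a2 := vi_ne (p := p) (i := N) (by omega) h2
  have a3 := vi_ne (p := p) (i := N - m) (by omega) (by omega)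
  have a4 : (N : ZMod p) = ((N - m : ℕ) : ZMod p) + m := by
    rw [← Nat.cast_add]; congr 1; omega
  calc vi p (N - m) * vi p m = vi p N * (N : ZMod p) * (vi p (N - m) * vi p m) := by
        rw [mul_comm (vi p N), a2, one_mul]
    _ = vi p N * ((((N - m : ℕ) : ZMod p) * vi p (N - m)) * vi p m + (m * vi p m) * vi p (N - m)) := by
        rw [a4]; ring
    _ = vi p N * (vi p (N - m) + vi p m) := by rw [a1, a3]; ring

noncomputable def cS (p : ℕ) [Fact p.Prime] : ZMod p := ∑ x ∈ Dp p, (-1)^x.1 * vi p x.1 * vi p x.2 ^ 3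
noncomputable def dS (p : ℕ) [Fact p.Prime] : ZMod p := ∑ x ∈ Dp p, (-1)^x.1 * (-1)^x.2 * vi p x.1 * vi p x.2 ^ 3
noncomputable def hS (p : ℕ) [Fact p.Prime] : ZMod p := ∑ x ∈ Dp p, (-1)^x.1 * (-1)^x.2 * vi p x.1 ^ 2 * vi p x.2 ^ 2
noncomputable def S1 (p : ℕ) [Fact p.Prime] : ZMod p :=
  ∑ x ∈ Dp p, (-1)^x.1 * (-1)^x.2 * vi p (x.2 - x.1) * vi p x.1 * vi p x.2 ^ 2
noncomputable def S2 (p : ℕ) [Fact p.Prime] : ZMod p :=
  ∑ x ∈ Dp p, (-1)^x.1 * (-1)^x.2 * vi p (x.2 - x.1) * vi p x.1 ^ 2 * vi p x.2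

theorem S1_eq : S1 p = cS p + dS p := by
  have h1 : cS p = ∑ x ∈ Dp p, (-1)^x.1 * (-1)^x.2 * vi p (x.2 - x.1) * vi p x.2 ^ 3 := by
    unfold cS
    rw [shift_Dp (fun i j => (-1)^i * vi p i * vi p j ^ 3)]
    apply sum_congr rfl
    intro x hx
    rw [mem_Dp] at hx
    rw [sgn_sub _ _ (by omega)]
    ring
  rw [h1]
  unfold S1 dS
  rw [← sum_add_distrib]
  apply sum_congr rfl
  intro x hx
  rw [mem_Dp] at hx
  have := pf2 (p := p) (m := x.1) (N := x.2) (by omega) (by omega) (by omega)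
  linear_combination ((-1)^x.1 * (-1)^x.2 * vi p x.2 ^ 2) * this

theorem S2_eq : S2 p = S1 p + hS p := by
  unfold S2 S1 hS
  rw [← sum_add_distrib]
  apply sum_congr rfl
  intro x hx
  rw [mem_Dp] at hx
  have := pf2 (p := p) (m := x.1) (N := x.2) (by omega) (by omega) (by omega)
  linear_combination ((-1)^x.1 * (-1)^x.2 * vi p x.2 * vi p x.1) * this

theorem S12 (hP : p = 2 * P + 1) : S1 p = - S2 p := by
  unfold S1 S2
  rw [refl_Dp (fun i j => (-1)^i * (-1)^j * vi p (j - i) * vi p i * vi p j ^ 2), ← sum_neg_distrib]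
  apply sum_congr rfl
  intro x hx
  rw [mem_Dp] at hx
  rw [sgn_compl hP _ (by omega), sgn_compl hP _ (by omega), vi_compl _ (by omega), vi_compl _ (by omega),
    show p - x.1 - (p - x.2) = x.2 - x.1 by omega]
  ring

theorem refl_Ico {A : Type*} [AddCommMonoid A] (f : ℕ → A) :
    ∑ i ∈ Ico 1 p, f i = ∑ i ∈ Ico 1 p, f (p - i) := by
  refine sum_bij' (fun x _ => p - x) (fun x _ => p - x) ?_ ?_ ?_ ?_ ?_
  · intro x hx
    simp only [mem_Ico] at *
    omega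
  · intro x hx
    simp only [mem_Ico] at *
    omega
  · intro x hx
    simp only [mem_Ico] at hx
    omega
  · intro x hx
    simp only [mem_Ico] at hx
    omega
  · intro x hx
    simp only [mem_Ico] at hx
    rw [show p - (p - x) = x by omega]

theorem Ico_range {A : Type*} [AddCommMonoid A] (hP : p = 2 * P + 1) (f : ℕ → A) :
    ∑ i ∈ Ico 1 p, f i = ∑ t ∈ range P, f (2 * t + 1) + ∑ t ∈ range P, f (2 * t + 1 + 1) := by
  rw [sum_Ico_eq_sum_range, show p - 1 = 2 * P by omega, split_parity, ← sum_add_distrib]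
  apply sum_congr rfl
  intro t _
  rw [show 1 + 2 * t = 2 * t + 1 by ring, show 1 + (2 * t + 1) = 2 * t + 1 + 1 by ring]

theorem two_cancel (hP : p = 2 * P + 1) (hP2 : 2 ≤ P) {x : ZMod p} (h : 2 * x = 0) : x = 0 := by
  rcases mul_eq_zero.mp h with h | h
  · exact absurd h (two_ne hP hP2)
  · exact h

/-- odd and even fourth power sums vanish -/
theorem ev4 (hP : p = 2 * P + 1) (hP3 : 3 ≤ P) : ∑ t ∈ range P, vi p (2 * t + 1 + 1) ^ 4 = 0 := by
  have : ∀ t ∈ range P, vi p (2 * t + 1 + 1) ^ 4 = (2⁻¹)^4 * (((t + 1 : ℕ) : ZMod p)⁻¹)^4 := by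
    intro t _
    unfold vi
    rw [← mul_pow, ← mul_inv]
    congr 2
    push_cast
    ring
  rw [sum_congr rfl this, ← mul_sum]
  have h := H4_zero (p := p) hP hP3
  unfold Hf at h
  rw [h, mul_zero]

theorem od_refl (hP : p = 2 * P + 1) (f : ℕ → ZMod p) :
    ∑ t ∈ range P, f (2 * t + 1) = ∑ t ∈ range P, f (p - (2 * t + 1 + 1)) := by
  rw [← sum_range_reflect (fun x => f (2 * x + 1))]
  apply sum_congr rfl
  intro t ht
  have ht := mem_range.mp ht
  rw [show 2 * (P - 1 - t) + 1 = p - (2 * t + 1 + 1) by omega]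

theorem od4 (hP : p = 2 * P + 1) (hP3 : 3 ≤ P) : ∑ t ∈ range P, vi p (2 * t + 1) ^ 4 = 0 := by
  rw [od_refl hP (fun i => vi p i ^ 4), ← ev4 hP hP3]
  apply sum_congr rfl
  intro t ht
  have ht := mem_range.mp ht
  rw [vi_compl _ (by omega)]
  ring

theorem all4 (hP : p = 2 * P + 1) (hP3 : 3 ≤ P) : ∑ i ∈ Ico 1 p, vi p i ^ 4 = 0 := by
  rw [Ico_range hP, od4 hP hP3, ev4 hP hP3, add_zero]

theorem sgn_sq (i : ℕ) : (-1 : ZMod p)^i * (-1)^i = 1 := by
  rw [← mul_pow]; norm_num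

theorem hS_zero (hP : p = 2 * P + 1) (hP3 : 3 ≤ P) : hS p = 0 := by
  have g2 : ∑ i ∈ Ico 1 p, (-1)^i * vi p i ^ 2 = 0 := by
    apply two_cancel hP (by omega)
    have h := refl_Ico (p := p) (fun i => (-1)^i * vi p i ^ 2)
    have h2 : ∑ i ∈ Ico 1 p, (-1)^(p - i) * vi p (p - i) ^ 2 = - ∑ i ∈ Ico 1 p, (-1)^i * vi p i ^ 2 := by
      rw [← sum_neg_distrib]
      apply sum_congr rfl
      intro i hi
      rw [mem_Ico] at hi
      rw [sgn_compl hP _ (by omega), vi_compl _ (by omega)]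
      ring
    rw [h2] at h
    linear_combination h
  have h := sum_pairs (p := p) (fun i j => ((-1)^i * vi p i ^ 2) * ((-1)^j * vi p j ^ 2))
  rw [← sum_mul_sum, g2, mul_zero] at h
  have h3 : ∑ i ∈ Ico 1 p, ((-1)^i * vi p i ^ 2) * ((-1)^i * vi p i ^ 2) = 0 := by
    rw [← all4 hP hP3]
    apply sum_congr rfl
    intro i _
    linear_combination (vi p i ^ 4) * sgn_sq (p := p) i
  have h4 : ∑ x ∈ Dp p, ((-1)^x.1 * vi p x.1 ^ 2) * ((-1)^x.2 * vi p x.2 ^ 2) = hS p := by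
    unfold hS
    apply sum_congr rfl
    intro x _
    ring
  have h5 : ∑ x ∈ Dp p, ((-1)^x.2 * vi p x.2 ^ 2) * ((-1)^x.1 * vi p x.1 ^ 2) = hS p := by
    unfold hS
    apply sum_congr rfl
    intro x _
    ring
  rw [h3, h4, h5] at h
  apply two_cancel hP (by omega)
  linear_combination -h

noncomputable def h1S (p : ℕ) [Fact p.Prime] : ZMod p := ∑ i ∈ Ico 1 p, (-1)^i * vi p i
noncomputable def h3S (p : ℕ) [Fact p.Prime] : ZMod p := ∑ i ∈ Ico 1 p, (-1)^i * vi p i ^ 3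

theorem dS_eq (hP : p = 2 * P + 1) (hP3 : 3 ≤ P) : h1S p * h3S p = 2 * dS p := by
  unfold h1S h3S
  rw [sum_mul_sum, sum_pairs]
  have h3 : ∑ i ∈ Ico 1 p, ((-1)^i * vi p i) * ((-1)^i * vi p i ^ 3) = 0 := by
    rw [← all4 hP hP3]
    apply sum_congr rfl
    intro i _
    linear_combination (vi p i ^ 4) * sgn_sq (p := p) i
  have h4 : ∑ x ∈ Dp p, ((-1)^x.1 * vi p x.1) * ((-1)^x.2 * vi p x.2 ^ 3) = dS p := by
    unfold dS
    apply sum_congr rfl
    intro x _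
    ring
  have h5 : ∑ x ∈ Dp p, ((-1)^x.2 * vi p x.2) * ((-1)^x.1 * vi p x.1 ^ 3) = dS p := by
    rw [refl_Dp (fun i j => ((-1)^j * vi p j) * ((-1)^i * vi p i ^ 3))]
    unfold dS
    apply sum_congr rfl
    intro x hx
    rw [mem_Dp] at hx
    rw [sgn_compl hP _ (by omega), sgn_compl hP _ (by omega), vi_compl _ (by omega), vi_compl _ (by omega)]
    ring
  rw [h3, h4, h5]
  ring

theorem h3S_eq (hP : p = 2 * P + 1) (hP3 : 3 ≤ P) : 4 * h3S p = Hf (ZMod p) 3 P := by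
  unfold h3S
  rw [Ico_range hP, od_refl hP (fun i => (-1)^i * vi p i ^ 3)]
  have h1 : ∑ t ∈ range P, (-1)^(2 * t + 1 + 1) * vi p (2 * t + 1 + 1) ^ 3 = (2⁻¹)^3 * Hf (ZMod p) 3 P := by
    unfold Hf
    rw [mul_sum]
    apply sum_congr rfl
    intro t _
    unfold vi
    rw [← mul_pow, ← mul_inv, show 2 * t + 1 + 1 = 2 * (t + 1) by ring, pow_mul]
    push_cast
    norm_num
  have h2 : ∑ t ∈ range P, (-1)^(p - (2 * t + 1 + 1)) * vi p (p - (2 * t + 1 + 1)) ^ 3 = (2⁻¹)^3 * Hf (ZMod p) 3 P := by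
    rw [← h1]
    apply sum_congr rfl
    intro t ht
    have ht := mem_range.mp ht
    rw [sgn_compl hP _ (by omega), vi_compl _ (by omega)]
    ring
  rw [h1, h2]
  have h2 : (2 : ZMod p) * 2⁻¹ = 1 := mul_inv_cancel₀ (two_ne hP (by omega))
  linear_combination (Hf (ZMod p) 3 P * (4 * 2⁻¹^2 + 2 * 2⁻¹ + 1)) * h2

/-- the truncated alternating harmonic numbers `∑_{i ≤ 2t+1} (-1)^{i-1}/i` -/
noncomputable def Aa (F : Type*) [Field F] (n : ℕ) : F := ∑ i ∈ range n, (-1)^i * ((i + 1 : ℕ) : F)⁻¹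

noncomputable def VS (p : ℕ) [Fact p.Prime] (P : ℕ) : ZMod p := ∑ t ∈ range P, Aa (ZMod p) (2 * t + 1) * vi p (2 * t + 1) ^ 3

theorem VS_eq (hP : p = 2 * P + 1) (hP3 : 3 ≤ P) : 2 * VS p P = dS p - cS p := by
  have h1 : dS p - cS p = ∑ j ∈ Ico 1 p, ((-1)^j - 1) * ((∑ i ∈ Ico 1 j, (-1)^i * vi p i) * vi p j ^ 3) := by
    unfold dS cS
    rw [← sum_sub_distrib, sum_Dp (fun i j => (-1)^i * (-1)^j * vi p i * vi p j ^ 3 - (-1)^i * vi p i * vi p j ^ 3)]
    apply sum_congr rfl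
    intro j _
    rw [sum_mul, mul_sum]
    apply sum_congr rfl
    intro i _
    ring
  rw [h1, Ico_range hP]
  have h2 : ∑ t ∈ range P, ((-1)^(2 * t + 1 + 1) - 1) * ((∑ i ∈ Ico 1 (2 * t + 1 + 1), (-1)^i * vi p i) * vi p (2 * t + 1 + 1) ^ 3) = 0 := by
    apply sum_eq_zero
    intro t _
    rw [show 2 * t + 1 + 1 = 2 * (t + 1) by ring, pow_mul]
    norm_num
  rw [h2, add_zero]
  have h3 : ∑ t ∈ range P, ((-1)^(2 * t + 1) - 1) * ((∑ i ∈ Ico 1 (2 * t + 1), (-1)^i * vi p i) * vi p (2 * t + 1) ^ 3) =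
      ∑ t ∈ range P, (2 * (Aa (ZMod p) (2 * t + 1) * vi p (2 * t + 1) ^ 3) - 2 * vi p (2 * t + 1) ^ 4) := by
    apply sum_congr rfl
    intro t _
    unfold Aa
    rw [sum_range_succ, sum_Ico_eq_sum_range, show 2 * t + 1 - 1 = 2 * t by omega, pow_succ, pow_mul]
    have h4 : ∑ k ∈ range (2 * t), (-1 : ZMod p)^(1 + k) * vi p (1 + k) = - ∑ k ∈ range (2 * t), (-1 : ZMod p)^k * (((k + 1 : ℕ)) : ZMod p)⁻¹ := by
      rw [← sum_neg_distrib]
      apply sum_congr rfl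
      intro k _
      unfold vi
      rw [add_comm 1 k, pow_succ]
      ring
    have h5 : (((2 * t + 1 : ℕ)) : ZMod p)⁻¹ = vi p (2 * t + 1) := rfl
    rw [h4, h5]
    generalize vi p (2 * t + 1) = w
    norm_num
    ring
  rw [h3, sum_sub_distrib, ← mul_sum, ← mul_sum, od4 hP hP3]
  unfold VS
  ring

theorem VS_main (hP : p = 2 * P + 1) (hP3 : 3 ≤ P) : 8 * VS p P = h1S p * Hf (ZMod p) 3 P := by
  have hs : S1 p = 0 := by
    apply two_cancel hP (by omega)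
    have h1 := S12 (p := p) hP
    rw [S2_eq, hS_zero hP hP3] at h1
    linear_combination h1
  rw [S1_eq] at hs
  have h2 := VS_eq (p := p) hP hP3
  have h3 := dS_eq (p := p) hP hP3
  have h4 := h3S_eq (p := p) hP hP3
  linear_combination 4 * h2 - 4 * h3 - 4 * hs + h1S p * h4

end

end Pool.Agent.D0H46.SE
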