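import Mathlib
import Pool.Agent.D0H46.SE.Alt

namespace Pool.Agent.D0H46.SE

open Finset Pool.Agent.D0H46.SC

set_option linter.unusedSectionVars false

section
variable {p : ℕ} [hp : Fact p.Prime] {P : ℕ}

/-- `q = (2^p - 2)/p` -/
def qq (p : ℕ) : ℚ := ∑ k ∈ range (p - 1), ((p - 1).choose k : ℚ) * ((k + 1 : ℕ) : ℚ)⁻¹

theorem qq_Zp : qq p ∈ Zp p := by
  unfold qq
  apply sum_mem
  intro k hk
  have hk := mem_range.mp hk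
  exact mul_mem (natCast_Zp _) (inv_Zp (nd (by omega) (by omega)))

theorem qq_eq : (p : ℚ) * qq p = 2^p - 2 := by
  have h1 := Nat.sum_range_choose p
  have hp1 := hp.out.one_lt
  obtain ⟨n, hn⟩ : ∃ n, p = n + 1 := ⟨p - 1, by omega⟩
  have h2 : (∑ m ∈ range (p + 1), (p.choose m : ℚ)) = 2^p := by exact_mod_cast h1
  rw [sum_range_succ, Nat.choose_self] at h2
  have h3 : ∑ m ∈ range p, (p.choose m : ℚ) = ∑ m ∈ range (p - 1), (p.choose (m+1) : ℚ) + 1 := by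
    conv_lhs => rw [show range p = range (p - 1 + 1) by congr 1; omega]
    rw [sum_range_succ', Nat.choose_zero_right]
    norm_num
  rw [h3] at h2
  have h4 : (p : ℚ) * qq p = ∑ m ∈ range (p - 1), (p.choose (m+1) : ℚ) := by
    unfold qq
    rw [mul_sum]
    apply sum_congr rfl
    intro k _
    have h5 := Nat.add_one_mul_choose_eq (p - 1) k
    rw [show p - 1 + 1 = p by omega] at h5
    have h6 : (p : ℚ) * ((p - 1).choose k : ℚ) = (p.choose (k+1) : ℚ) * ((k + 1 : ℕ) : ℚ) := by exact_mod_cast h5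
    have h7 : ((k + 1 : ℕ) : ℚ) ≠ 0 := by positivity
    rw [← mul_assoc, h6, mul_assoc, mul_inv_cancel₀ h7, mul_one]
  rw [h4]
  push_cast at h2
  linarith

theorem rd_qq : ((qq p : ℚ) : ZMod p) = - h1S p := by
  unfold qq h1S
  rw [rd_sum, sum_Ico_eq_sum_range, ← sum_neg_distrib]
  · apply sum_congr rfl
    intro k hk
    have hk := mem_range.mp hk
    rw [rd_mul (natCast_Zp _) (inv_Zp (nd (by omega) (by omega))), rd_inv (nd (by omega) (by omega)),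
      Rat.cast_natCast, choose_pred k (by omega), add_comm 1 k, pow_succ]
    unfold vi
    ring
  · intro k hk
    have hk := mem_range.mp hk
    exact mul_mem (natCast_Zp _) (inv_Zp (nd (by omega) (by omega)))

theorem Aa_Zp (n : ℕ) (hn : n < p) : Aa ℚ n ∈ Zp p := by
  unfold Aa
  apply sum_mem
  intro k hk
  have hk := mem_range.mp hk
  exact mul_mem (pow_mem (neg_mem (one_mem _)) _) (inv_Zp (nd (by omega) (by omega)))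

theorem rd_Aa (n : ℕ) (hn : n < p) : ((Aa ℚ n : ℚ) : ZMod p) = Aa (ZMod p) n := by
  unfold Aa
  rw [rd_sum]
  · apply sum_congr rfl
    intro k hk
    have hk := mem_range.mp hk
    rw [rd_mul (pow_mem (neg_mem (one_mem _)) _) (inv_Zp (nd (by omega) (by omega))), rd_inv (nd (by omega) (by omega)),
      rd_pow (neg_mem (one_mem _))]
    norm_num
  · intro k hk
    have hk := mem_range.mp hk
    exact mul_mem (pow_mem (neg_mem (one_mem _)) _) (inv_Zp (nd (by omega) (by omega)))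

noncomputable def VQ (P : ℕ) : ℚ := ∑ t ∈ range P, Aa ℚ (2 * t + 1) * (((2 * t + 1 : ℕ) : ℚ)⁻¹) ^ 3

theorem VQ_Zp (hP : p = 2 * P + 1) : VQ P ∈ Zp p := by
  unfold VQ
  apply sum_mem
  intro t ht
  have ht := mem_range.mp ht
  exact mul_mem (Aa_Zp _ (by omega)) (pow_mem (inv_Zp (nd (by omega) (by omega))) _)

theorem rd_VQ (hP : p = 2 * P + 1) : ((VQ P : ℚ) : ZMod p) = VS p P := by
  unfold VQ VS
  rw [rd_sum]
  · apply sum_congr rfl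
    intro t ht
    have ht := mem_range.mp ht
    rw [rd_mul (Aa_Zp _ (by omega)) (pow_mem (inv_Zp (nd (by omega) (by omega))) _),
      rd_pow (inv_Zp (nd (by omega) (by omega))), rd_inv (nd (by omega) (by omega)), rd_Aa _ (by omega)]
    rfl
  · intro t ht
    have ht := mem_range.mp ht
    exact mul_mem (Aa_Zp _ (by omega)) (pow_mem (inv_Zp (nd (by omega) (by omega))) _)

theorem VQ_main (hP : p = 2 * P + 1) (hP3 : 3 ≤ P) : 8 * VQ P + qq p * Hq 3 P ∈ I p 1 := by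
  have hH := Hq_Zp (p := p) 3 P (by omega)
  apply rd_zero (add_mem (mul_mem (nmem 8) (VQ_Zp hP)) (mul_mem qq_Zp hH))
  rw [rd_add (mul_mem (nmem 8) (VQ_Zp hP)) (mul_mem qq_Zp hH), rd_mul (nmem 8) (VQ_Zp hP),
    rd_mul qq_Zp hH, rd_VQ hP, rd_qq, rd_Hq 3 P (by omega)]
  have h8 : (((8 : ℚ)) : ZMod p) = 8 := by
    have := Rat.cast_natCast (α := ZMod p) 8
    exact_mod_cast this
  rw [h8, VS_main hP hP3]
  ring

/-- mod `p^2` chain -/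
theorem chain (hP : p = 2 * P + 1) (v ρ : ℕ → ℚ) (lam : ℚ) (hl : lam ∈ Zp p) (h0 : v 0 ∈ Zp p)
    (hv : ∀ t, t + 1 < P → v (t+1) = v t * ρ t)
    (hρ : ∀ t, t + 1 < P → ρ t * ((2 * t + 3 : ℕ) : ℚ)^2 + ((2 * t + 1 : ℕ) : ℚ)^2 * (1 + p * lam *
      (((2 * t + 1 : ℕ) : ℚ)⁻¹ + ((2 * t + 3 : ℕ) : ℚ)⁻¹ - 2 * ((2 * t + 2 : ℕ) : ℚ)⁻¹)) ∈ I p 2) (t : ℕ) (ht : t < P) :
    v t ∈ Zp p ∧ v t * (-1)^t * ((2 * t + 1 : ℕ) : ℚ)^2 - v 0 * (1 + p * lam * (2 * Aa ℚ (2 * t + 1) -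
      ((2 * t + 1 : ℕ) : ℚ)⁻¹ - 1)) ∈ I p 2 := by
  induction t with
  | zero =>
    refine ⟨h0, ?_⟩
    have e : v 0 * (-1)^0 * ((2 * 0 + 1 : ℕ) : ℚ)^2 - v 0 * (1 + p * lam * (2 * Aa ℚ (2 * 0 + 1) -
      ((2 * 0 + 1 : ℕ) : ℚ)⁻¹ - 1)) = 0 := by
      simp [Aa]
      ring
    rw [e]
    exact zero_mem _
  | succ t ih =>
    obtain ⟨i1, i2⟩ := ih (by omega)
    have r := hρ t (by omega)
    have n1 : ((2 * t + 1 : ℕ) : ℚ)⁻¹ ∈ Zp p := inv_Zp (nd (by omega) (by omega))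
    have n2 : ((2 * t + 2 : ℕ) : ℚ)⁻¹ ∈ Zp p := inv_Zp (nd (by omega) (by omega))
    have n3 : ((2 * t + 3 : ℕ) : ℚ)⁻¹ ∈ Zp p := inv_Zp (nd (by omega) (by omega))
    have hA := Aa_Zp (p := p) (2 * t + 1) (by omega)
    have hA2 : Aa ℚ (2 * (t + 1) + 1) = Aa ℚ (2 * t + 1) - ((2 * t + 2 : ℕ) : ℚ)⁻¹ + ((2 * t + 3 : ℕ) : ℚ)⁻¹ := by
      unfold Aa
      rw [show 2 * (t + 1) + 1 = (2 * t + 1) + 1 + 1 by ring, sum_range_succ, sum_range_succ _ (2 * t + 1)]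
      rw [show (-1 : ℚ)^(2 * t + 1) = -1 by rw [pow_succ, pow_mul]; norm_num,
        show (-1 : ℚ)^(2 * t + 1 + 1) = 1 by rw [pow_succ, pow_succ, pow_mul]; norm_num,
        show 2 * t + 1 + 1 = 2 * t + 2 by ring, show 2 * t + 2 + 1 = 2 * t + 3 by ring]
      ring
    rw [hA2, show 2 * (t + 1) + 1 = 2 * t + 3 by ring]
    set δ := ((2 * t + 1 : ℕ) : ℚ)⁻¹ + ((2 * t + 3 : ℕ) : ℚ)⁻¹ - 2 * ((2 * t + 2 : ℕ) : ℚ)⁻¹ with hδ
    have hδZ : δ ∈ Zp p := sub_mem (add_mem n1 n3) (mul_mem (nmem 2) n2)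
    set L := 2 * Aa ℚ (2 * t + 1) - ((2 * t + 1 : ℕ) : ℚ)⁻¹ - 1 with hL
    have hLZ : L ∈ Zp p := sub_mem (sub_mem (mul_mem (nmem 2) hA) n1) (one_mem _)
    have hρZ : ρ t ∈ Zp p := by
      have e : ρ t = ((ρ t * ((2 * t + 3 : ℕ) : ℚ)^2 + ((2 * t + 1 : ℕ) : ℚ)^2 * (1 + p * lam * δ)) -
          ((2 * t + 1 : ℕ) : ℚ)^2 * (1 + p * lam * δ)) * (((2 * t + 3 : ℕ) : ℚ)⁻¹)^2 := by
        have : ((2 * t + 3 : ℕ) : ℚ) ≠ 0 := by positivity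
        field_simp
        ring
      rw [e]
      exact mul_mem (sub_mem (I_Zp r) (mul_mem (pow_mem (natCast_Zp _) _) (add_mem (one_mem _)
        (mul_mem (mul_mem (natCast_Zp _) hl) hδZ)))) (pow_mem n3 _)
    refine ⟨?_, ?_⟩
    · rw [hv t (by omega)]
      exact mul_mem i1 hρZ
    · rw [hv t (by omega)]
      have e : v t * ρ t * (-1)^(t+1) * ((2 * t + 3 : ℕ) : ℚ)^2 - v 0 * (1 + p * lam * (2 * (Aa ℚ (2 * t + 1) -
          ((2 * t + 2 : ℕ) : ℚ)⁻¹ + ((2 * t + 3 : ℕ) : ℚ)⁻¹) - ((2 * t + 3 : ℕ) : ℚ)⁻¹ - 1)) =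
          (- (v t * (-1)^t)) * (ρ t * ((2 * t + 3 : ℕ) : ℚ)^2 + ((2 * t + 1 : ℕ) : ℚ)^2 * (1 + p * lam * δ)) +
          (1 + p * lam * δ) * (v t * (-1)^t * ((2 * t + 1 : ℕ) : ℚ)^2 - v 0 * (1 + p * lam * L)) +
          (p : ℚ)^2 * (v 0 * lam^2 * L * δ) := by
        rw [hL, hδ, pow_succ]
        ring
      rw [e]
      refine add_mem (add_mem (I_mul_left (neg_mem (mul_mem i1 (pow_mem (neg_mem (one_mem _)) _))) r)
        (I_mul_left (add_mem (one_mem _) (mul_mem (mul_mem (natCast_Zp _) hl) hδZ)) i2)) ⟨_, ?_, rfl⟩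
      exact mul_mem (mul_mem (mul_mem h0 (pow_mem hl _)) hLZ) hδZ

theorem chain_sum (hP : p = 2 * P + 1) (hP3 : 3 ≤ P) (v ρ : ℕ → ℚ) (lam : ℚ) (hl : lam ∈ Zp p) (h0 : v 0 ∈ Zp p)
    (hv : ∀ t, t + 1 < P → v (t+1) = v t * ρ t)
    (hρ : ∀ t, t + 1 < P → ρ t * ((2 * t + 3 : ℕ) : ℚ)^2 + ((2 * t + 1 : ℕ) : ℚ)^2 * (1 + p * lam *
      (((2 * t + 1 : ℕ) : ℚ)⁻¹ + ((2 * t + 3 : ℕ) : ℚ)⁻¹ - 2 * ((2 * t + 2 : ℕ) : ℚ)⁻¹)) ∈ I p 2) :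
    8 * ∑ t ∈ range P, ((2 * t + 1 : ℕ) : ℚ) * v t ^ 2 + v 0 ^ 2 * Hq 3 P * (1 - 2 * p * lam + 4 * p * lam * qq p) ∈ I p 2 := by
  have h1 : ∑ t ∈ range P, ((2 * t + 1 : ℕ) : ℚ) * v t ^ 2 - v 0 ^ 2 * ((1 - 2 * p * lam) * Oe 3 P + 4 * p * lam * VQ P
      - 2 * p * lam * Oe 4 P) ∈ I p 2 := by
    have e1 : ∑ t ∈ range P, ((2 * t + 1 : ℕ) : ℚ) * v t ^ 2 - v 0 ^ 2 * ((1 - 2 * p * lam) * Oe 3 P + 4 * p * lam * VQ P
      - 2 * p * lam * Oe 4 P) = ∑ t ∈ range P, (((2 * t + 1 : ℕ) : ℚ) * v t ^ 2 - v 0 ^ 2 * (((1 - 2 * p * lam) *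
        (((2 * t + 1 : ℕ) : ℚ)⁻¹)^3) + 4 * p * lam * (Aa ℚ (2 * t + 1) * (((2 * t + 1 : ℕ) : ℚ)⁻¹) ^ 3) -
        2 * p * lam * ((((2 * t + 1 : ℕ) : ℚ)⁻¹)^4))) := by
      unfold Oe VQ
      rw [sum_sub_distrib, ← mul_sum, sum_sub_distrib, sum_add_distrib, ← mul_sum, ← mul_sum, ← mul_sum]
    rw [e1]
    apply sum_mem
    intro t ht
    have ht := mem_range.mp ht
    obtain ⟨i1, i2⟩ := chain hP v ρ lam hl h0 hv hρ t ht
    have n1 : ((2 * t + 1 : ℕ) : ℚ)⁻¹ ∈ Zp p := inv_Zp (nd (by omega) (by omega))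
    have hA := Aa_Zp (p := p) (2 * t + 1) (by omega)
    have hj : ((2 * t + 1 : ℕ) : ℚ) ≠ 0 := by positivity
    have hLZ : 2 * Aa ℚ (2 * t + 1) - ((2 * t + 1 : ℕ) : ℚ)⁻¹ - 1 ∈ Zp p :=
      sub_mem (sub_mem (mul_mem (nmem 2) hA) n1) (one_mem _)
    set j : ℚ := ((2 * t + 1 : ℕ) : ℚ) with hjd
    set L := 2 * Aa ℚ (2 * t + 1) - j⁻¹ - 1 with hL
    have e2 : j * v t ^ 2 - v 0 ^ 2 * (((1 - 2 * p * lam) * (j⁻¹)^3) + 4 * p * lam * (Aa ℚ (2 * t + 1) * j⁻¹ ^ 3) -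
        2 * p * lam * (j⁻¹^4)) = (j⁻¹)^3 * (v t * (-1)^t * j^2 - v 0 * (1 + p * lam * L)) *
          (v t * (-1)^t * j^2 + v 0 * (1 + p * lam * L)) + (p : ℚ)^2 * ((j⁻¹)^3 * v 0^2 * lam^2 * L^2) := by
      have hs : ((-1 : ℚ)^t)^2 = 1 := by rw [← pow_mul, mul_comm, pow_mul]; norm_num
      have e3 : j * v t ^ 2 = (j⁻¹)^3 * (v t * (-1)^t * j^2)^2 := by
        rw [mul_pow, mul_pow, hs]
        field_simp
      rw [e3]
      have e4 : Aa ℚ (2 * t + 1) = (L + j⁻¹ + 1) / 2 := by rw [hL]; ring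
      rw [e4]
      ring
    rw [e2]
    refine add_mem (I_mul_right (I_mul_left (pow_mem n1 _) i2) ?_) ⟨_, ?_, rfl⟩
    · exact add_mem (mul_mem (mul_mem i1 (pow_mem (neg_mem (one_mem _)) _)) (pow_mem (natCast_Zp _) _))
        (mul_mem h0 (add_mem (one_mem _) (mul_mem (mul_mem (natCast_Zp _) hl) hLZ)))
    · exact mul_mem (mul_mem (mul_mem (pow_mem n1 _) (pow_mem h0 _)) (pow_mem hl _)) (pow_mem hLZ _)
  have hpl : (p : ℚ) * lam ∈ Zp p := mul_mem (natCast_Zp _) hl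
  have h2 : v 0 ^ 2 * (1 - 2 * p * lam) * 8 * (Oe 3 P + 8⁻¹ * Hq 3 P) ∈ I p 2 :=
    I_mul_left (mul_mem (mul_mem (pow_mem h0 _) (sub_mem (one_mem _) (by
      rw [mul_assoc]; exact mul_mem (nmem 2) hpl))) (nmem 8)) (O3 hP hP3)
  have h3 : v 0 ^ 2 * (4 * lam) * (p * (8 * VQ P + qq p * Hq 3 P)) ∈ I p 2 := by
    obtain ⟨u, hu, e⟩ := VQ_main (p := p) hP hP3
    rw [e]
    exact ⟨v 0 ^ 2 * (4 * lam) * u, mul_mem (mul_mem (pow_mem h0 _) (mul_mem (nmem 4) hl)) hu, by ring⟩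
  have h4 : v 0 ^ 2 * (16 * lam) * (p * Oe 4 P) ∈ I p 2 := by
    obtain ⟨u, hu, e⟩ := O4 (p := p) hP hP3
    rw [e]
    exact ⟨v 0 ^ 2 * (16 * lam) * u, mul_mem (mul_mem (pow_mem h0 _) (mul_mem (nmem 16) hl)) hu, by ring⟩
  have e5 : 8 * ∑ t ∈ range P, ((2 * t + 1 : ℕ) : ℚ) * v t ^ 2 + v 0 ^ 2 * Hq 3 P * (1 - 2 * p * lam + 4 * p * lam * qq p) =
    8 * (∑ t ∈ range P, ((2 * t + 1 : ℕ) : ℚ) * v t ^ 2 - v 0 ^ 2 * ((1 - 2 * p * lam) * Oe 3 P + 4 * p * lam * VQ P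
      - 2 * p * lam * Oe 4 P)) + v 0 ^ 2 * (1 - 2 * p * lam) * 8 * (Oe 3 P + 8⁻¹ * Hq 3 P) +
      v 0 ^ 2 * (4 * lam) * (p * (8 * VQ P + qq p * Hq 3 P)) - v 0 ^ 2 * (16 * lam) * (p * Oe 4 P) := by
    ring
  rw [e5]
  exact sub_mem (add_mem (add_mem (I_mul_left (nmem 8) h1) h2) h3) h4

end

end Pool.Agent.D0H46.SE
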