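import Mathlib
import Pool.Agent.D0H46.SE.Chain
import Pool.Agent.D0H46.SC.Est

namespace Pool.Agent.D0H46.SE

open Finset Pool.Agent.D0H46.SC

set_option linter.unusedSectionVars false

section
variable {p : ℕ} [hp : Fact p.Prime] {P : ℕ}

/-- `x ≡ 1 + a (mod p^5)` with `a ≡ 0 (mod p^3)` -/
def Lg (p : ℕ) [Fact p.Prime] (x a : ℚ) : Prop := a ∈ I p 3 ∧ x - (1 + a) ∈ I p 5

theorem Lg.Zp {x a : ℚ} (h : Lg p x a) : x ∈ Zp p := by
  have e : x = (x - (1 + a)) + (1 + a) := by ring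
  rw [e]
  exact add_mem (I_Zp h.2) (add_mem (one_mem _) (I_Zp h.1))

theorem Lg.sub_one {x a : ℚ} (h : Lg p x a) : x - 1 ∈ I p 3 := by
  have e : x - 1 = (x - (1 + a)) + a := by ring
  rw [e]
  exact add_mem (I_mono (by norm_num) h.2) h.1

theorem Lg.mul {x y a b : ℚ} (h1 : Lg p x a) (h2 : Lg p y b) : Lg p (x * y) (a + b) := by
  refine ⟨add_mem h1.1 h2.1, ?_⟩
  have e : x * y - (1 + (a + b)) = (x - (1 + a)) * y + (1 + a) * (y - (1 + b)) + a * b := by ring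
  rw [e]
  exact add_mem (add_mem (I_mul_right h1.2 h2.Zp) (I_mul_left (add_mem (one_mem _) (I_Zp h1.1)) h2.2))
    (I_mono (by norm_num) (I_mul h1.1 h2.1))

theorem Lg.one : Lg p 1 0 := ⟨zero_mem _, by simp⟩

theorem Lg.pow {x a : ℚ} (h : Lg p x a) (n : ℕ) : Lg p (x^n) (n * a) := by
  induction n with
  | zero => simpa using Lg.one
  | succ n ih =>
    have := ih.mul h
    rw [pow_succ]
    push_cast
    rw [show ((n : ℚ) + 1) * a = n * a + a by ring]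
    exact this

theorem Lg.ne {x a : ℚ} (h : Lg p x a) : x ≠ 0 := by
  have := one_add_ne0 (I_mono (by norm_num) h.sub_one : x - 1 ∈ I p 1)
  rwa [show 1 + (x - 1) = x by ring] at this

theorem Lg.inv_Zp {x a : ℚ} (h : Lg p x a) : x⁻¹ ∈ SC.Zp p := by
  have := inv_one_add (I_mono (by norm_num) h.sub_one : x - 1 ∈ I p 1)
  rwa [show 1 + (x - 1) = x by ring] at this

theorem Lg.inv {x a : ℚ} (h : Lg p x a) : Lg p x⁻¹ (-a) := by
  refine ⟨neg_mem h.1, ?_⟩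
  have hx := h.ne
  have e : x⁻¹ - (1 + -a) = x⁻¹ * (a * a - (x - (1 + a)) * (1 - a)) := by
    field_simp
    ring
  rw [e]
  exact I_mul_left h.inv_Zp (sub_mem (I_mono (by norm_num) (I_mul h.1 h.1))
    (I_mul_right h.2 (sub_mem (one_mem _) (I_Zp h.1))))

theorem half_mem (hP : p = 2 * P + 1) (hP1 : 1 ≤ P) {m : ℕ} {x : ℚ} (h : 2 * x ∈ I p m) : x ∈ I p m := by
  have := I_mul_left (inv2 hP hP1 1) h
  have e : (((2^1 : ℕ) : ℚ))⁻¹ * (2 * x) = x := by push_cast; ring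
  rwa [e] at this

theorem prod2 (n : ℕ) (c : ℚ) (hc : c ∈ Zp p) (y : ℕ → ℚ) (hy : ∀ t, t < n → y t ∈ Zp p) :
    2 * ∏ t ∈ range n, (1 + (p : ℚ)^2 * c * y t) - (2 + 2 * ((p : ℚ)^2 * c) * ∑ t ∈ range n, y t +
      ((p : ℚ)^2 * c)^2 * ((∑ t ∈ range n, y t)^2 - ∑ t ∈ range n, y t ^ 2)) ∈ I p 6 := by
  induction n with
  | zero => simp
  | succ n ih =>
    have i := ih (fun t ht => hy t (by omega))
    have h1 : ∑ t ∈ range n, y t ∈ Zp p := sum_mem (fun t ht => hy t (by have := mem_range.mp ht; omega))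
    have h2 : ∑ t ∈ range n, y t ^ 2 ∈ Zp p := sum_mem (fun t ht => pow_mem (hy t (by have := mem_range.mp ht; omega)) _)
    have hn := hy n (by omega)
    rw [prod_range_succ, sum_range_succ, sum_range_succ]
    set X := ∏ t ∈ range n, (1 + (p : ℚ)^2 * c * y t)
    set s1 := ∑ t ∈ range n, y t
    set s2 := ∑ t ∈ range n, y t ^ 2
    have e : 2 * (X * (1 + (p : ℚ)^2 * c * y n)) - (2 + 2 * ((p : ℚ)^2 * c) * (s1 + y n) +
      ((p : ℚ)^2 * c)^2 * ((s1 + y n)^2 - (s2 + y n ^ 2))) =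
      (1 + (p : ℚ)^2 * c * y n) * (2 * X - (2 + 2 * ((p : ℚ)^2 * c) * s1 + ((p : ℚ)^2 * c)^2 * (s1^2 - s2))) +
      (p : ℚ)^6 * (c^3 * (s1^2 - s2) * y n) := by ring
    rw [e]
    refine add_mem (I_mul_left (add_mem (one_mem _) (mul_mem (mul_mem (pow_mem (natCast_Zp _) _) hc) hn)) i)
      ⟨_, mul_mem (mul_mem (pow_mem hc _) (sub_mem (pow_mem h1 _) h2)) hn, rfl⟩

theorem prod_lg (hP : p = 2 * P + 1) (hP1 : 1 ≤ P) (n : ℕ) (c : ℚ) (hc : c ∈ Zp p) (y : ℕ → ℚ)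
    (hy : ∀ t, t < n → y t ∈ Zp p) (h1 : ∑ t ∈ range n, y t ∈ I p 1) (h2 : ∑ t ∈ range n, y t ^ 2 ∈ I p 1) :
    Lg p (∏ t ∈ range n, (1 + (p : ℚ)^2 * c * y t)) ((p : ℚ)^2 * c * ∑ t ∈ range n, y t) := by
  have h := prod2 n c hc y hy
  refine ⟨?_, ?_⟩
  · obtain ⟨u, hu, e⟩ := h1
    rw [e]
    exact ⟨c * u, mul_mem hc hu, by ring⟩
  · apply half_mem hP hP1
    set X := ∏ t ∈ range n, (1 + (p : ℚ)^2 * c * y t)
    set s1 := ∑ t ∈ range n, y t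
    set s2 := ∑ t ∈ range n, y t ^ 2
    have h3 : s1^2 - s2 ∈ I p 1 := by
      refine sub_mem ?_ h2
      rw [pow_two]
      exact I_mul_left (I_Zp h1) h1
    obtain ⟨u, hu, e⟩ := h3
    have e2 : 2 * (X - (1 + (p : ℚ)^2 * c * s1)) = (2 * X - (2 + 2 * ((p : ℚ)^2 * c) * s1 +
      ((p : ℚ)^2 * c)^2 * (s1^2 - s2))) + (p : ℚ)^5 * (c^2 * u) := by
      rw [e]; ring
    rw [e2]
    exact add_mem (I_mono (by norm_num) h) ⟨_, mul_mem (pow_mem hc _) hu, rfl⟩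

/-- `∏_{i<p} (1 + x p / i)` -/
def PiQ (p P : ℕ) (x : ℚ) : ℚ := ∏ i ∈ range (2 * P), (1 + x * p * ((i + 1 : ℕ) : ℚ)⁻¹)

/-- `∏_{r ≤ P} (1 - c p²/r²)` -/
def PrQ (p P : ℕ) (c : ℚ) : ℚ := ∏ t ∈ range P, (1 + (p : ℚ)^2 * (-c) * (((t + 1 : ℕ) : ℚ)⁻¹)^2)

def zz (p t : ℕ) : ℚ := ((t + 1 : ℕ) : ℚ)⁻¹ * ((p - (t + 1) : ℕ) : ℚ)⁻¹

theorem zz_p (t : ℕ) (ht : t + 1 < p) : ((t + 1 : ℕ) : ℚ)⁻¹ + ((p - (t + 1) : ℕ) : ℚ)⁻¹ = p * zz p t := by
  have := pr (p := p) (t + 1) (by omega) ht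
  unfold zz
  linear_combination this

theorem PiQ_pair (hP : p = 2 * P + 1) (x : ℚ) : PiQ p P x = ∏ t ∈ range P, (1 + (p : ℚ)^2 * (x + x^2) * zz p t) := by
  unfold PiQ
  rw [two_mul, prod_range_add, ← prod_range_reflect (fun t => (1 + x * p * ((P + t + 1 : ℕ) : ℚ)⁻¹)), ← prod_mul_distrib]
  apply prod_congr rfl
  intro t ht
  have ht := mem_range.mp ht
  rw [show P + (P - 1 - t) + 1 = p - (t + 1) by omega]
  have := zz_p (p := p) t (by omega)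
  have e : (1 + x * p * ((t + 1 : ℕ) : ℚ)⁻¹) * (1 + x * p * ((p - (t + 1) : ℕ) : ℚ)⁻¹) =
    1 + x * p * (((t + 1 : ℕ) : ℚ)⁻¹ + ((p - (t + 1) : ℕ) : ℚ)⁻¹) + x^2 * p^2 * zz p t := by
    unfold zz; ring
  rw [e, this]
  ring

theorem zz_Zp (t : ℕ) (ht : t + 1 < p) : zz p t ∈ Zp p :=
  mul_mem (inv_Zp (nd (by omega) (by omega))) (inv_Zp (nd (by omega) (by omega)))

theorem sum_zz (hP : p = 2 * P + 1) : (p : ℚ) * ∑ t ∈ range P, zz p t = Hq 1 (2 * P) := by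
  rw [mul_sum]
  unfold Hq
  rw [two_mul, sum_range_add, ← sum_range_reflect (fun x => (((P + x + 1 : ℕ) : ℚ)⁻¹)^1), ← sum_add_distrib]
  apply sum_congr rfl
  intro t ht
  have ht := mem_range.mp ht
  rw [show P + (P - 1 - t) + 1 = p - (t + 1) by omega, pow_one, pow_one, zz_p t (by omega)]

theorem six_inv (hP : p = 2 * P + 1) (hP3 : 3 ≤ P) : ((6 : ℕ) : ℚ)⁻¹ ∈ Zp p := by
  apply inv_Zp
  intro h
  have h1 := Nat.le_of_dvd (by norm_num) h
  omega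

theorem six_mem (hP : p = 2 * P + 1) (hP3 : 3 ≤ P) {m : ℕ} {x : ℚ} (h : 6 * x ∈ I p m) : x ∈ I p m := by
  have := I_mul_left (six_inv (p := p) hP hP3) h
  have e : ((6 : ℕ) : ℚ)⁻¹ * (6 * x) = x := by push_cast; ring
  rwa [e] at this

theorem Hq1_mem (hP : p = 2 * P + 1) (hP3 : 3 ≤ P) : Hq 1 (2 * P) ∈ I p 2 := by
  apply six_mem hP hP3
  have h := Ha (p := p) hP hP3
  have e : 6 * Hq 1 (2 * P) = (6 * Hq 1 (2 * P) - p^2 * Hq 3 P) + p^2 * Hq 3 P := by ring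
  rw [e]
  exact add_mem (I_mono (by norm_num) h) ⟨_, Hq_Zp (p := p) 3 P (by omega), rfl⟩

theorem sum_zz_mem (hP : p = 2 * P + 1) (hP3 : 3 ≤ P) : ∑ t ∈ range P, zz p t ∈ I p 1 := by
  have h := sum_zz (p := p) hP
  obtain ⟨u, hu, e⟩ := Hq1_mem (p := p) hP hP3
  rw [e] at h
  have hp0 : (p : ℚ) ≠ 0 := by exact_mod_cast hp.out.ne_zero
  refine ⟨u, hu, ?_⟩
  apply mul_left_cancel₀ hp0
  rw [h]
  ring

theorem sum_zz2_mem (hP : p = 2 * P + 1) (hP3 : 3 ≤ P) : ∑ t ∈ range P, zz p t ^ 2 ∈ I p 1 := by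
  have h1 : ∑ t ∈ range P, zz p t ^ 2 - Hq 4 P ∈ I p 1 := by
    unfold Hq
    rw [← sum_sub_distrib]
    apply sum_mem
    intro t ht
    have ht := mem_range.mp ht
    have h := pr (p := p) (t + 1) (by omega) (by omega)
    have n1 : ((t + 1 : ℕ) : ℚ)⁻¹ ∈ Zp p := inv_Zp (nd (by omega) (by omega))
    have n2 : ((p - (t + 1) : ℕ) : ℚ)⁻¹ ∈ Zp p := inv_Zp (nd (by omega) (by omega))
    unfold zz
    set a := ((t + 1 : ℕ) : ℚ)⁻¹
    set b := ((p - (t + 1) : ℕ) : ℚ)⁻¹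
    refine ⟨a^3 * b * (b - a), mul_mem (mul_mem (pow_mem n1 _) n2) (sub_mem n2 n1), ?_⟩
    linear_combination (a^2 * (b - a)) * h
  have e : ∑ t ∈ range P, zz p t ^ 2 = (∑ t ∈ range P, zz p t ^ 2 - Hq 4 P) + Hq 4 P := by ring
  rw [e]
  exact add_mem h1 (Hq4 hP hP3)

theorem PiQ_lg (hP : p = 2 * P + 1) (hP3 : 3 ≤ P) (x : ℚ) (hx : x ∈ Zp p) :
    Lg p (PiQ p P x) ((x + x^2) * (p * Hq 1 (2 * P))) := by
  have h := prod_lg (p := p) hP (by omega) P (x + x^2) (add_mem hx (pow_mem hx _)) (zz p)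
    (fun t ht => zz_Zp t (by omega)) (sum_zz_mem hP hP3) (sum_zz2_mem hP hP3)
  rw [← PiQ_pair hP] at h
  rw [← sum_zz hP]
  have e : (x + x^2) * (p * (p * ∑ t ∈ range P, zz p t)) = (p : ℚ)^2 * (x + x^2) * ∑ t ∈ range P, zz p t := by ring
  rw [e]
  exact h

theorem PrQ_lg (hP : p = 2 * P + 1) (hP3 : 3 ≤ P) (c : ℚ) (hc : c ∈ Zp p) :
    Lg p (PrQ p P c) (- c * (p^2 * Hq 2 P)) := by
  have h2 : ∑ t ∈ range P, ((((t + 1 : ℕ) : ℚ)⁻¹)^2)^2 = Hq 4 P := by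
    unfold Hq
    apply sum_congr rfl
    intro t _
    ring
  have h := prod_lg (p := p) hP (by omega) P (-c) (neg_mem hc) (fun t => (((t + 1 : ℕ) : ℚ)⁻¹)^2)
    (fun t ht => pow_mem (inv_Zp (nd (by omega) (by omega))) _) (Hq2 hP hP3) (by
      rw [h2]; exact Hq4 hP hP3)
  unfold PrQ
  have e : - c * (p^2 * Hq 2 P) = (p : ℚ)^2 * (-c) * Hq 2 P := by ring
  rw [e]
  exact h

/-- exact products -/
theorem choose_prod (m n : ℕ) : ∏ i ∈ range n, (1 + (m : ℚ) * ((i + 1 : ℕ) : ℚ)⁻¹) = ((m + n).choose n : ℚ) := by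
  induction n with
  | zero => simp
  | succ n ih =>
    rw [prod_range_succ, ih]
    have h := Nat.add_one_mul_choose_eq (m + n) n
    have h2 : ((m : ℚ) + n + 1) * ((m + n).choose n : ℚ) = ((m + (n + 1)).choose (n+1) : ℚ) * (n + 1) := by
      exact_mod_cast h
    have h3 : ((n : ℚ) + 1) ≠ 0 := by positivity
    push_cast
    field_simp
    linear_combination h2

theorem choose_prod' (m n : ℕ) (h : n ≤ m) : ∏ i ∈ range n, (1 - ((m + 1 : ℕ) : ℚ) * ((i + 1 : ℕ) : ℚ)⁻¹) = (-1)^n * (m.choose n : ℚ) := by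
  induction n with
  | zero => simp
  | succ n ih =>
    rw [prod_range_succ, ih (by omega)]
    have h1 := Nat.choose_succ_right_eq m n
    have h2 : (m.choose (n+1) : ℚ) * (n + 1) = (m.choose n : ℚ) * ((m : ℚ) - n) := by
      have := congrArg (fun z : ℕ => (z : ℚ)) h1
      push_cast [Nat.cast_sub (show n ≤ m by omega)] at this
      exact this
    have h3 : ((n : ℚ) + 1) ≠ 0 := by positivity
    have h4 : (m.choose (n+1) : ℚ) = (m.choose n : ℚ) * ((m : ℚ) - n) / (n + 1) := by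
      rw [eq_div_iff h3]; exact h2
    rw [h4, pow_succ]
    push_cast
    field_simp
    ring

theorem W_eq (hP : p = 2 * P + 1) : ((2 * p).choose p : ℚ) = 2 * PiQ p P 1 := by
  have h1 : PiQ p P 1 = ((p + 2 * P).choose (2 * P) : ℚ) := by
    unfold PiQ
    rw [← choose_prod]
    apply prod_congr rfl
    intro i _
    ring
  rw [h1]
  have h2 : (2 * p).choose p = 2 * (p + 2 * P).choose (2 * P) := by
    have e1 : 2 * p = (p + 2 * P) + 1 := by omega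
    rw [e1]
    conv_lhs => rw [show p = 2 * P + 1 from hP, Nat.choose_succ_succ]
    have h3 : (2 * P + 1 + 2 * P).choose (2 * P + 1) = (2 * P + 1 + 2 * P).choose (2 * P) := by
      rw [← Nat.choose_symm_add]
    rw [h3, ← hP]
    ring
  exact_mod_cast h2

theorem Pi2_eq : PiQ p P 2 = ((2 * p + 2 * P).choose (2 * P) : ℚ) := by
  unfold PiQ
  rw [← choose_prod]
  apply prod_congr rfl
  intro i _
  push_cast
  ring

theorem B_eq (hP : p = 2 * P + 1) : PrQ p P 1 = (-1)^P * ((2 * P).choose P : ℚ) * ((p + P).choose P : ℚ) := by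
  have h1 := choose_prod p P
  have h2 := choose_prod' (2 * P) P (by omega)
  rw [← h1, ← h2, ← prod_mul_distrib]
  unfold PrQ
  apply prod_congr rfl
  intro i _
  rw [← hP]
  ring

theorem ak_rev : ∏ i ∈ range P, (1 - (2 * P + 1 : ℚ) / (2 * (i + 1))) = (-1)^P * ak P := by
  unfold ak
  rw [prod_div_distrib, ← prod_range_reflect (fun j : ℕ => (2 * (j : ℚ) + 1)), ← prod_div_distrib]
  have : ((-1 : ℚ))^P = ∏ _i ∈ range P, (-1 : ℚ) := by simp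
  rw [this, ← prod_mul_distrib]
  apply prod_congr rfl
  intro i hi
  have hi := mem_range.mp hi
  have e : ((P - 1 - i : ℕ) : ℚ) = P - 1 - i := by
    rw [Nat.cast_sub (by omega), Nat.cast_sub (by omega)]; norm_num
  rw [e]
  have : ((i : ℚ) + 1) ≠ 0 := by positivity
  field_simp
  ring

/-- `M = (-1)^P C(2P,P)/16^P` -/
def Mq (P : ℕ) : ℚ := (-1)^P * ((2 * P).choose P : ℚ) / 16^P

theorem A_eq (hP : p = 2 * P + 1) : PrQ p P (1/4) = Mq P * PiQ p P 1 := by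
  have h1 := A_exact P
  have h2 := ak_rev (P := P)
  have h3 : PrQ p P (1/4) = (∏ i ∈ range P, (1 - (2 * P + 1 : ℚ) / (2 * (i + 1)))) *
      ∏ i ∈ range P, (1 + (2 * P + 1 : ℚ) / (2 * (i + 1))) := by
    rw [← prod_mul_distrib]
    unfold PrQ
    apply prod_congr rfl
    intro i _
    rw [hP]
    have : ((i : ℚ) + 1) ≠ 0 := by positivity
    push_cast
    field_simp
    ring
  rw [h3, h2, ← h1, ← hP, ak_cb, ak_cb]
  have h4 := W_eq (p := p) hP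
  have h5 : (Nat.centralBinom p : ℚ) = 2 * PiQ p P 1 := by rw [← h4]; rfl
  rw [h5]
  have h6 : (Nat.centralBinom P : ℚ) = ((2 * P).choose P : ℚ) := rfl
  rw [h6]
  unfold Mq
  have e1 : (2 : ℚ)^p = 2 * 4^P := by rw [hP, pow_succ, pow_mul]; norm_num; ring
  have e2 : (4 : ℚ)^p = 4 * 16^P := by rw [hP, pow_succ, pow_mul]; norm_num; ring
  rw [e1, e2]
  have z1 : (4 : ℚ)^P ≠ 0 := by positivity
  have z2 : (16 : ℚ)^P ≠ 0 := by positivity
  field_simp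
  ring

end

end Pool.Agent.D0H46.SE
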