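import Mathlib
import Pool.Agent.D0H46.SE.Prods
import Pool.Agent.R440.D518.G

namespace Pool.Agent.D0H46.SE

open Finset Nat Pool.Agent.D0H46.SC

set_option linter.unusedSectionVars false

section
variable {p : ℕ} [hp : Fact p.Prime] {P : ℕ}

/-- `x ≡ 1 + p a (mod p^2)` -/
def L2 (p : ℕ) [Fact p.Prime] (x a : ℚ) : Prop := a ∈ SC.Zp p ∧ x - (1 + p * a) ∈ I p 2

theorem p_mem : (p : ℚ) ∈ I p 1 := ⟨1, one_mem _, by ring⟩

theorem pa_mem {a : ℚ} (h : a ∈ SC.Zp p) : (p : ℚ) * a ∈ I p 1 := I_mul_right p_mem h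

theorem L2.Zp {x a : ℚ} (h : L2 p x a) : x ∈ SC.Zp p := by
  have e : x = (x - (1 + p * a)) + (1 + p * a) := by ring
  rw [e]
  exact add_mem (I_Zp h.2) (add_mem (one_mem _) (I_Zp (pa_mem h.1)))

theorem L2.sub_one {x a : ℚ} (h : L2 p x a) : x - 1 ∈ I p 1 := by
  have e : x - 1 = (x - (1 + p * a)) + p * a := by ring
  rw [e]
  exact add_mem (I_mono (by norm_num) h.2) (pa_mem h.1)

theorem L2.mul {x y a b : ℚ} (h1 : L2 p x a) (h2 : L2 p y b) : L2 p (x * y) (a + b) := by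
  refine ⟨add_mem h1.1 h2.1, ?_⟩
  have e : x * y - (1 + p * (a + b)) = (x - (1 + p * a)) * y + (1 + p * a) * (y - (1 + p * b)) + (p * a) * (p * b) := by ring
  rw [e]
  exact add_mem (add_mem (I_mul_right h1.2 h2.Zp) (I_mul_left (add_mem (one_mem _) (I_Zp (pa_mem h1.1))) h2.2))
    (I_mul (pa_mem h1.1) (pa_mem h2.1))

theorem L2.one : L2 p 1 0 := ⟨zero_mem _, by simp⟩

theorem L2.pow {x a : ℚ} (h : L2 p x a) (n : ℕ) : L2 p (x^n) (n * a) := by
  induction n with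
  | zero => simpa using L2.one
  | succ n ih =>
    have := ih.mul h
    rw [pow_succ]
    push_cast
    rw [show ((n : ℚ) + 1) * a = n * a + a by ring]
    exact this

theorem L2.ne {x a : ℚ} (h : L2 p x a) : x ≠ 0 := by
  have := one_add_ne0 h.sub_one
  rwa [show 1 + (x - 1) = x by ring] at this

theorem L2.inv_Zp {x a : ℚ} (h : L2 p x a) : x⁻¹ ∈ SC.Zp p := by
  have := inv_one_add h.sub_one
  rwa [show 1 + (x - 1) = x by ring] at this

theorem L2.inv {x a : ℚ} (h : L2 p x a) : L2 p x⁻¹ (-a) := by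
  refine ⟨neg_mem h.1, ?_⟩
  have hx := h.ne
  have e : x⁻¹ - (1 + p * -a) = x⁻¹ * ((p * a) * (p * a) - (x - (1 + p * a)) * (1 - p * a)) := by
    field_simp
    ring
  rw [e]
  exact I_mul_left h.inv_Zp (sub_mem (I_mul (pa_mem h.1) (pa_mem h.1))
    (I_mul_right h.2 (sub_mem (one_mem _) (I_Zp (pa_mem h.1)))))

theorem L2.lin {a : ℚ} (h : a ∈ SC.Zp p) : L2 p (1 + p * a) a := ⟨h, by simp⟩

theorem Lg.L2 {x a : ℚ} (h : Lg p x a) : SE.L2 p x 0 := by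
  refine ⟨zero_mem _, ?_⟩
  have e : x - (1 + p * 0) = x - 1 := by ring
  rw [e]
  exact I_mono (by norm_num) h.sub_one

/-- `κ = 2^{p-1}` -/
theorem kap (hP : p = 2 * P + 1) (hP1 : 1 ≤ P) : L2 p ((4 : ℚ)^P) (((2^1 : ℕ) : ℚ)⁻¹ * qq p) := by
  have hz : ((2^1 : ℕ) : ℚ)⁻¹ * qq p ∈ SC.Zp p := mul_mem (inv2 hP hP1 1) qq_Zp
  have h := qq_eq (p := p)
  have e2 : (2 : ℚ)^p = 2 * 4^P := by rw [hP, pow_succ, pow_mul]; norm_num; ring
  rw [e2] at h
  have e : (4 : ℚ)^P = 1 + p * (((2^1 : ℕ) : ℚ)⁻¹ * qq p) := by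
    push_cast
    linear_combination (-1/2 : ℚ) * h
  rw [e]
  exact L2.lin hz

/-- the central quotient of part A -/
theorem TP0 (hP : p = 2 * P + 1) : PrQ p P 1 * (p * Pool.Agent.R440.D518.T P 0) =
    (-1)^P * PiQ p P 2 * ((2 * P).choose P : ℚ)^2 := by
  rw [B_eq hP, Pi2_eq]
  have h1 : ((2 * p + 2 * P).choose (2 * P) : ℚ) * ((2 * P)! : ℚ) * ((4 * P + 2)! : ℚ) = ((6 * P + 2)! : ℚ) := by
    have := Nat.choose_mul_factorial_mul_factorial (n := 2 * p + 2 * P) (k := 2 * P) (by omega)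
    rw [show 2 * p + 2 * P - 2 * P = 4 * P + 2 by omega, show 2 * p + 2 * P = 6 * P + 2 by omega] at this
    rw [show 2 * p + 2 * P = 6 * P + 2 by omega]
    exact_mod_cast this
  have h2 : ((2 * P).choose P : ℚ) * (P ! : ℚ) * (P ! : ℚ) = ((2 * P)! : ℚ) := by
    have := Nat.choose_mul_factorial_mul_factorial (n := 2 * P) (k := P) (by omega)
    rw [show 2 * P - P = P by omega] at this
    exact_mod_cast this
  have h3 : ((p + P).choose P : ℚ) * (P ! : ℚ) * (p * ((2 * P)! : ℚ)) = ((3 * P + 1)! : ℚ) := by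
    have := Nat.choose_mul_factorial_mul_factorial (n := p + P) (k := P) (by omega)
    rw [show p + P - P = 2 * P + 1 by omega, Nat.factorial_succ, ← hP, show p + P = 3 * P + 1 by omega] at this
    rw [show p + P = 3 * P + 1 by omega]
    exact_mod_cast this
  unfold Pool.Agent.R440.D518.T
  rw [show 6 * P + 2 * 0 + 2 = 6 * P + 2 by ring, show 2 * P + 2 * 0 = 2 * P by ring, show 3 * P + 0 + 1 = 3 * P + 1 by ring,
    show P + 0 = P by ring, show 4 * P + 0 + 2 = 4 * P + 2 by ring, Nat.factorial_zero, ← h1, ← h3]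
  have z1 : ((2 * P)! : ℚ) ≠ 0 := by positivity
  have z2 : (P ! : ℚ) ≠ 0 := by positivity
  have z3 : ((4 * P + 2)! : ℚ) ≠ 0 := by positivity
  have z4 : ((p + P).choose P : ℚ) ≠ 0 := by
    have := Nat.choose_pos (n := p + P) (k := P) (by omega)
    positivity
  have z5 : (p : ℚ) ≠ 0 := by exact_mod_cast hp.out.ne_zero
  generalize ((4 * P + 2)! : ℚ) = A1 at *
  generalize ((p + P).choose P : ℚ) = A2 at *
  generalize ((2 * p + 2 * P).choose (2 * P) : ℚ) = A3 at *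
  rw [← h2]
  rw [← h2] at z1
  generalize ((2 * P).choose P : ℚ) = A4 at *
  generalize (P ! : ℚ) = A5 at *
  have z6 : A4 ≠ 0 := by
    intro h; apply z1; rw [h]; ring
  field_simp
  push_cast
  ring

theorem T00 (hP : p = 2 * P + 1) : Pool.Agent.R440.D518.T 0 (2 * P) * ((p + 1) * (2 * p - 1)) = 2 * PiQ p P 1 ^ 2 * p := by
  have h1 : ((2 * p).choose p : ℚ) * ((2 * P + 1)! : ℚ) * ((2 * P + 1)! : ℚ) = ((4 * P + 2)! : ℚ) := by
    have := Nat.choose_mul_factorial_mul_factorial (n := 2 * p) (k := p) (by omega)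
    rw [show 2 * p - p = p by omega] at this
    have e : (2 * p)! = (4 * P + 2)! := by congr 1; omega
    have e2 : p ! = (2 * P + 1)! := by congr 1
    rw [e, e2] at this
    exact_mod_cast this
  have h2 := W_eq (p := p) hP
  have f1 : ((2 * P + 1)! : ℚ) = (2 * P + 1) * ((2 * P)! : ℚ) := by
    rw [Nat.factorial_succ]; push_cast; ring
  have f2 : ((2 * P + 2)! : ℚ) = (2 * P + 2) * ((2 * P + 1) * ((2 * P)! : ℚ)) := by
    rw [Nat.factorial_succ, Nat.factorial_succ]; push_cast; ring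
  have f3 : ((4 * P + 2)! : ℚ) = (4 * P + 2) * ((4 * P + 1) * ((4 * P)! : ℚ)) := by
    rw [Nat.factorial_succ, Nat.factorial_succ]; push_cast; ring
  have hW : PiQ p P 1 = (4 * P + 2) * ((4 * P + 1) * ((4 * P)! : ℚ)) / (2 * ((2 * P + 1) * ((2 * P)! : ℚ))^2) := by
    rw [h2, f1, f3] at h1
    have z1 : ((2 * P)! : ℚ) ≠ 0 := by positivity
    have z2 : (2 * (P : ℚ) + 1) ≠ 0 := by positivity
    rw [eq_div_iff (by positivity)]
    linear_combination h1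
  unfold Pool.Agent.R440.D518.T
  rw [show 6 * 0 + 2 * (2 * P) + 2 = 4 * P + 2 by ring, show 2 * 0 + 2 * (2 * P) = 4 * P by ring,
    show 3 * 0 + 2 * P + 1 = 2 * P + 1 by ring, show 0 + 2 * P = 2 * P by ring,
    hW, f1, f2, f3]
  have z1 : ((2 * P)! : ℚ) ≠ 0 := by positivity
  have z2 : ((4 * P)! : ℚ) ≠ 0 := by positivity
  have e : (p : ℚ) = 2 * P + 1 := by rw [hP]; push_cast; ring
  rw [e]
  generalize ((2 * P)! : ℚ) = A1 at *
  generalize ((4 * P)! : ℚ) = A2 at *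
  have z3 : (2 * (P : ℚ) + 1) ≠ 0 := by positivity
  have z4 : (2 * (P : ℚ) + 2) ≠ 0 := by positivity
  field_simp
  ring

/-- `ρ` of part A -/
def rhoA (p t : ℕ) : ℚ := (2 * p + (2 * t + 1)) * (p - (2 * t + 1)) * (p - (2 * t + 2)) /
  ((2 * p - (2 * t + 3)) * (p + (2 * t + 3)) * (p + (2 * t + 2)))

theorem T_ratio (k m : ℕ) (h : p = 2 * k + 3 + m) :
    Pool.Agent.R440.D518.T (k + 1) m = Pool.Agent.R440.D518.T k (m + 2) * rhoA p k := by
  unfold Pool.Agent.R440.D518.T rhoA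
  have f1 : ((6 * (k + 1) + 2 * m + 2)! : ℚ) = (6 * k + 2 * m + 8) * ((6 * k + 2 * m + 7) * ((6 * k + 2 * m + 6)! : ℚ)) := by
    rw [show 6 * (k + 1) + 2 * m + 2 = (6 * k + 2 * m + 6) + 1 + 1 by ring, Nat.factorial_succ, Nat.factorial_succ]; push_cast; ring
  have f2 : ((2 * k + 2 * (m + 2))! : ℚ) = (2 * k + 2 * m + 4) * ((2 * k + 2 * m + 3) * ((2 * k + 2 * m + 2)! : ℚ)) := by
    rw [show 2 * k + 2 * (m + 2) = (2 * k + 2 * m + 2) + 1 + 1 by ring, Nat.factorial_succ, Nat.factorial_succ]; push_cast; ring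
  have f3 : ((3 * (k + 1) + m + 1)! : ℚ) = (3 * k + m + 4) * ((3 * k + m + 3)! : ℚ) := by
    rw [show 3 * (k + 1) + m + 1 = (3 * k + m + 3) + 1 by ring, Nat.factorial_succ]; push_cast; ring
  have f4 : ((k + (m + 2))! : ℚ) = (k + m + 2) * ((k + m + 1)! : ℚ) := by
    rw [show k + (m + 2) = (k + m + 1) + 1 by ring, Nat.factorial_succ]; push_cast; ring
  have f5 : ((4 * (k + 1) + m + 2)! : ℚ) = (4 * k + m + 6) * ((4 * k + m + 5) * ((4 * k + m + 4)! : ℚ)) := by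
    rw [show 4 * (k + 1) + m + 2 = (4 * k + m + 4) + 1 + 1 by ring, Nat.factorial_succ, Nat.factorial_succ]; push_cast; ring
  have f6 : ((m + 2)! : ℚ) = (m + 2) * ((m + 1) * (m ! : ℚ)) := by
    rw [Nat.factorial_succ, Nat.factorial_succ]; push_cast; ring
  rw [show 6 * k + 2 * (m + 2) + 2 = 6 * k + 2 * m + 6 by ring, show 2 * (k + 1) + 2 * m = 2 * k + 2 * m + 2 by ring,
    show 3 * k + (m + 2) + 1 = 3 * k + m + 3 by ring, show k + 1 + m = k + m + 1 by ring,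
    show 4 * k + (m + 2) + 2 = 4 * k + m + 4 by ring, f1, f2, f3, f4, f5, f6]
  have z1 : ((6 * k + 2 * m + 6)! : ℚ) ≠ 0 := by positivity
  have z2 : ((2 * k + 2 * m + 2)! : ℚ) ≠ 0 := by positivity
  have z3 : ((3 * k + m + 3)! : ℚ) ≠ 0 := by positivity
  have z4 : ((k + m + 1)! : ℚ) ≠ 0 := by positivity
  have z5 : ((4 * k + m + 4)! : ℚ) ≠ 0 := by positivity
  have z6 : (m ! : ℚ) ≠ 0 := by positivity
  generalize ((6 * k + 2 * m + 6)! : ℚ) = A1 at *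
  generalize ((2 * k + 2 * m + 2)! : ℚ) = A2 at *
  generalize ((3 * k + m + 3)! : ℚ) = A3 at *
  generalize ((k + m + 1)! : ℚ) = A4 at *
  generalize ((4 * k + m + 4)! : ℚ) = A5 at *
  generalize (m ! : ℚ) = A6 at *
  have e : (p : ℚ) = 2 * k + 3 + m := by rw [h]; push_cast; ring
  rw [e]
  have e1 : (2 * (2 * (k : ℚ) + 3 + m) + (2 * k + 1)) = 6 * k + 2 * m + 7 := by ring
  have e2 : (2 * (k : ℚ) + 3 + m - (2 * k + 1)) = m + 2 := by ring
  have e3 : (2 * (k : ℚ) + 3 + m - (2 * k + 2)) = m + 1 := by ring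
  have e4 : (2 * (2 * (k : ℚ) + 3 + m) - (2 * k + 3)) = 2 * k + 2 * m + 3 := by ring
  have e5 : (2 * (k : ℚ) + 3 + m + (2 * k + 3)) = 4 * k + m + 6 := by ring
  have e6 : (2 * (k : ℚ) + 3 + m + (2 * k + 2)) = 4 * k + m + 5 := by ring
  rw [e1, e2, e3, e4, e5, e6]
  have y1 : (6 * (k : ℚ) + 2 * m + 8) ≠ 0 := by positivity
  have y2 : (2 * (k : ℚ) + 2 * m + 4) ≠ 0 := by positivity
  have y3 : (2 * (k : ℚ) + 2 * m + 3) ≠ 0 := by positivity
  have y4 : (3 * (k : ℚ) + m + 4) ≠ 0 := by positivity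
  have y5 : ((k : ℚ) + m + 2) ≠ 0 := by positivity
  have y6 : (4 * (k : ℚ) + m + 6) ≠ 0 := by positivity
  have y7 : (4 * (k : ℚ) + m + 5) ≠ 0 := by positivity
  have y8 : ((m : ℚ) + 2) ≠ 0 := by positivity
  have y9 : ((m : ℚ) + 1) ≠ 0 := by positivity
  field_simp
  ring

theorem rhoA_est (hP : p = 2 * P + 1) (t : ℕ) (ht : t + 1 < P) :
    rhoA p t * ((2 * t + 3 : ℕ) : ℚ)^2 + ((2 * t + 1 : ℕ) : ℚ)^2 * (1 + p * 1 *
      (((2 * t + 1 : ℕ) : ℚ)⁻¹ + ((2 * t + 3 : ℕ) : ℚ)⁻¹ - 2 * ((2 * t + 2 : ℕ) : ℚ)⁻¹)) ∈ I p 2 := by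
  have n1 : ((2 * t + 1 : ℕ) : ℚ)⁻¹ ∈ SC.Zp p := SC.inv_Zp (nd (by omega) (by omega))
  have n2 : ((2 * t + 2 : ℕ) : ℚ)⁻¹ ∈ SC.Zp p := SC.inv_Zp (nd (by omega) (by omega))
  have n3 : ((2 * t + 3 : ℕ) : ℚ)⁻¹ ∈ SC.Zp p := SC.inv_Zp (nd (by omega) (by omega))
  have hZ : ((2 * t + 1 : ℕ) : ℚ) ∈ SC.Zp p := natCast_Zp _
  have z1 : ((2 * t + 1 : ℕ) : ℚ) ≠ 0 := by positivity
  have z2 : ((2 * t + 2 : ℕ) : ℚ) ≠ 0 := by positivity
  have z3 : ((2 * t + 3 : ℕ) : ℚ) ≠ 0 := by positivity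
  have e1 : ((2 * t + 1 : ℕ) : ℚ) = 2 * t + 1 := by push_cast; ring
  have e2 : ((2 * t + 2 : ℕ) : ℚ) = 2 * t + 2 := by push_cast; ring
  have e3 : ((2 * t + 3 : ℕ) : ℚ) = 2 * t + 3 := by push_cast; ring
  unfold rhoA
  rw [← e1, ← e2, ← e3]
  generalize ((2 * t + 1 : ℕ) : ℚ) = a at *
  generalize ((2 * t + 2 : ℕ) : ℚ) = b at *
  generalize ((2 * t + 3 : ℕ) : ℚ) = c at *
  have l1 := L2.lin (p := p) (mul_mem (nmem (p := p) 2) n1)
  have l2 := L2.lin (p := p) (mul_mem (neg_mem (nmem (p := p) 2)) n3)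
  have l3 := L2.lin (p := p) (neg_mem n1)
  have l4 := L2.lin (p := p) (neg_mem n2)
  have l5 := L2.lin (p := p) n2
  have l6 := L2.lin (p := p) n3
  have l := ((((l1.mul l2.inv).mul l3).mul l4).mul l5.inv).mul l6.inv
  have h := l.2
  have i2 := l2.ne
  have i5 := l5.ne
  have i6 := l6.ne
  have j2 : (2 * (p : ℚ) - c) ≠ 0 := by
    intro hh; apply i2
    have : (p : ℚ) = c / 2 := by linarith
    rw [this]; field_simp; ring
  have j5 : ((p : ℚ) + b) ≠ 0 := by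
    intro hh; apply i5
    have : (p : ℚ) = -b := by linarith
    rw [this]; field_simp; ring
  have j6 : ((p : ℚ) + c) ≠ 0 := by
    intro hh; apply i6
    have : (p : ℚ) = -c := by linarith
    rw [this]; field_simp; ring
  have e : (2 * p + a) * (p - a) * (p - b) / ((2 * p - c) * (p + c) * (p + b)) * c^2 + a^2 * (1 + p * 1 * (a⁻¹ + c⁻¹ - 2 * b⁻¹)) =
    (- a^2) * ((1 + p * (2 * a⁻¹)) * (1 + p * (-2 * c⁻¹))⁻¹ * (1 + p * -a⁻¹) * (1 + p * -b⁻¹) * (1 + p * b⁻¹)⁻¹ * (1 + p * c⁻¹)⁻¹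
      - (1 + p * (2 * a⁻¹ + -(-2 * c⁻¹) + -a⁻¹ + -b⁻¹ + -b⁻¹ + -c⁻¹))) := by
    have k2 : (1 + p * (-2 * c⁻¹))⁻¹ = - c / (2 * p - c) := by
      rw [inv_eq_iff_eq_inv, inv_div]
      field_simp
      ring
    have k5 : (1 + p * b⁻¹)⁻¹ = b / (p + b) := by
      rw [inv_eq_iff_eq_inv, inv_div]
      field_simp
      ring
    have k6 : (1 + p * c⁻¹)⁻¹ = c / (p + c) := by
      rw [inv_eq_iff_eq_inv, inv_div]
      field_simp
      ring
    rw [k2, k5, k6]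
    field_simp
    ring
  rw [e]
  exact I_mul_left (neg_mem (pow_mem hZ _)) h

end

end Pool.Agent.D0H46.SE
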