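import Mathlib
import Pool.Agent.D0H46.SE.PartA

namespace Pool.Agent.D0H46.SE

open Finset Nat Pool.Agent.D0H46.SC

set_option linter.unusedSectionVars false

section
variable {p : ℕ} [hp : Fact p.Prime] {P : ℕ}

theorem sumA_exact (hP : p = 2 * P + 1) :
    ((256 : ℚ)^(2 * P)) * ∑ k ∈ range p, (21 * (k : ℚ)^3 + 22 * k^2 + 8 * k + 1) * ((2 * k).choose k : ℚ)^7 / 256^k =
    (p : ℚ)^4 * PiQ p P 1 ^ 3 * ∑ k ∈ range (P + 1), ((2 * k + 1 : ℕ) : ℚ) * Pool.Agent.R440.D518.T k (p - (2 * k + 1)) ^ 2 := by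
  have h1 : ∑ k ∈ range p, (21 * (k : ℚ)^3 + 22 * k^2 + 8 * k + 1) * ((2 * k).choose k : ℚ)^7 / 256^k =
      2 * ∑ k ∈ range p, Pool.Agent.R440.D518.s k := by
    rw [mul_sum]
    apply sum_congr rfl
    intro k _
    unfold Pool.Agent.R440.D518.s
    have : (256 : ℚ)^k ≠ 0 := by positivity
    field_simp
  rw [h1, Pool.Agent.R440.D518.sum_s]
  have h2 : ∑ k ∈ range p, Pool.Agent.R440.D518.F p k = ∑ k ∈ range (P + 1), Pool.Agent.R440.D518.F p k := by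
    symm
    apply sum_subset
    · intro k hk
      rw [mem_range] at *
      omega
    · intro k _ hk
      rw [mem_range] at hk
      exact Pool.Agent.R440.D518.F_high _ _ (by omega)
  rw [h2, mul_sum, mul_sum, mul_sum]
  apply sum_congr rfl
  intro k hk
  have hk := mem_range.mp hk
  have h3 := Pool.Agent.R440.D518.F_eq k (p - (2 * k + 1))
  rw [show 2 * k + (p - (2 * k + 1)) = 2 * P by omega, show 2 * k + 1 + (p - (2 * k + 1)) = p by omega, W_eq hP] at h3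
  have h4 : (256 : ℚ)^(2 * P) * (2 * Pool.Agent.R440.D518.F p k) = 2 * (256^(2 * P) * Pool.Agent.R440.D518.F p k) := by ring
  rw [h4, h3]
  unfold Pool.Agent.R440.D518.t
  rw [show 2 * k + 1 + (p - (2 * k + 1)) = p by omega]
  ring

theorem K_eq (P : ℕ) : (256 : ℚ)^(2 * P) = ((4 : ℚ)^P)^8 := by
  rw [← pow_mul, mul_comm P 8, pow_mul, pow_mul]
  norm_num

theorem p_nd (k : ℕ) (hk : 0 < k) (hk2 : k < p) : ¬ p ∣ p + k := by
  intro h
  have := (Nat.dvd_add_right (dvd_refl p)).mp h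
  exact nd hk hk2 this

theorem relA (hP : p = 2 * P + 1) (hP3 : 3 ≤ P) : 6 * (p * Hq 1 (2 * P)) - p^3 * Hq 3 P ∈ I p 5 := by
  obtain ⟨u, hu, e⟩ := Ha (p := p) hP hP3
  exact ⟨u, hu, by linear_combination (p : ℚ) * e⟩

theorem relB (hP : p = 2 * P + 1) (hP3 : 3 ≤ P) : 6 * (p^2 * Hq 2 P) + 7 * (p^3 * Hq 3 P) ∈ I p 5 := by
  obtain ⟨u, hu, e⟩ := Hb (p := p) hP hP3
  exact ⟨u, hu, by linear_combination (p : ℚ)^2 * e⟩

theorem partA (hP : p = 2 * P + 1) (hP3 : 3 ≤ P) :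
    ∑ k ∈ range p, (21 * (k : ℚ)^3 + 22 * k^2 + 8 * k + 1) * ((2 * k).choose k : ℚ)^7 / 256^k - (p : ℚ)^3 ∈ I p 8 := by
  have hp0 : (p : ℚ) ≠ 0 := by exact_mod_cast hp.out.ne_zero
  have hex := sumA_exact (p := p) hP
  set S := ∑ k ∈ range p, (21 * (k : ℚ)^3 + 22 * k^2 + 8 * k + 1) * ((2 * k).choose k : ℚ)^7 / 256^k with hS
  rw [sum_range_succ, show p - (2 * P + 1) = 0 by omega, ← hP] at hex
  set v : ℕ → ℚ := fun t => Pool.Agent.R440.D518.T t (p - (2 * t + 1)) / p with hv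
  set g : ℚ := p * Hq 1 (2 * P) with hg
  set h : ℚ := p^2 * Hq 2 P with hh
  set H : ℚ := Hq 3 P with hH
  have hHZ : H ∈ SC.Zp p := Hq_Zp 3 P (by omega)
  set Sg : ℚ := ∑ t ∈ range P, ((2 * t + 1 : ℕ) : ℚ) * v t ^ 2 with hSg
  have e1 : ∑ k ∈ range P, ((2 * k + 1 : ℕ) : ℚ) * Pool.Agent.R440.D518.T k (p - (2 * k + 1)) ^ 2 = p^2 * Sg := by
    rw [hSg, mul_sum]
    apply sum_congr rfl
    intro k _
    rw [hv]
    field_simp
  rw [e1] at hex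
  -- products
  have lW : Lg p (PiQ p P 1) ((1 + 1^2) * g) := PiQ_lg hP hP3 1 (one_mem _)
  have l2 : Lg p (PiQ p P 2) ((2 + 2^2) * g) := PiQ_lg hP hP3 2 (nmem 2)
  have h4 : (1/4 : ℚ) ∈ SC.Zp p := by
    have := inv2 (p := p) hP (by omega) 2
    have e : (((2^2 : ℕ) : ℚ))⁻¹ = 1/4 := by norm_num
    rwa [e] at this
  have lA : Lg p (PrQ p P (1/4)) (- (1/4) * h) := PrQ_lg hP hP3 _ h4
  have lB : Lg p (PrQ p P 1) (- 1 * h) := PrQ_lg hP hP3 1 (one_mem _)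
  have hM := A_eq (p := p) hP
  have hT := TP0 (p := p) hP
  set W := PiQ p P 1 with hW
  set Pi2 := PiQ p P 2 with hPi2
  set A := PrQ p P (1/4) with hA
  set B := PrQ p P 1 with hB
  set X : ℚ := p * Pool.Agent.R440.D518.T P 0 with hX
  have W0 := lW.ne
  have B0 := lB.ne
  have K0 : ((4 : ℚ)^P) ≠ 0 := by positivity
  have lcen := ((((l2.pow 2).mul (lA.pow 4)).mul lW.inv).mul (lB.inv.pow 2))
  set cen := Pi2^2 * A^4 * W⁻¹ * (B⁻¹)^2 with hcen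
  have hC : ((2 * P).choose P : ℚ)^4 = Mq P ^ 4 * ((4 : ℚ)^P)^8 := by
    unfold Mq
    have e : ((-1 : ℚ)^P)^4 = 1 := by rw [← pow_mul, mul_comm, pow_mul]; norm_num
    have e2 : (16 : ℚ)^P = ((4 : ℚ)^P)^2 := by rw [← pow_mul, mul_comm, pow_mul]; norm_num
    rw [div_pow, mul_pow, e, e2]
    field_simp
  have hXX : X^2 = Pi2^2 * A^4 * ((4 : ℚ)^P)^8 / (W^4 * B^2) := by
    have e : ((-1 : ℚ)^P)^2 = 1 := by rw [← pow_mul, mul_comm, pow_mul]; norm_num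
    have hx : X = (-1)^P * Pi2 * ((2 * P).choose P : ℚ)^2 / B := by
      rw [eq_div_iff B0, mul_comm]; exact hT
    rw [hx, hM, div_pow, mul_pow, mul_pow, e, one_mul, ← pow_mul, show 2 * 2 = 4 by norm_num, hC]
    field_simp
  have hSeq : S - (p : ℚ)^3 = p^3 * (p^3 * (W^3 * (((4 : ℚ)^P)^8)⁻¹ * Sg) + cen - 1) := by
    rw [K_eq] at hex
    have e2 : (p : ℚ)^4 * W^3 * (p^2 * Sg + p * Pool.Agent.R440.D518.T P 0 ^ 2) = p^6 * W^3 * Sg + p^3 * W^3 * X^2 := by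
      rw [hX]; ring
    rw [e2, hXX] at hex
    have e3 : S = (p^6 * W^3 * Sg + p^3 * W^3 * (Pi2^2 * A^4 * ((4 : ℚ)^P)^8 / (W^4 * B^2))) / ((4 : ℚ)^P)^8 := by
      rw [eq_div_iff (by positivity), mul_comm]; exact hex
    rw [e3, hcen]
    field_simp
  -- the chain
  have hv0 : v 0 * ((1 + p * 1) * (1 + p * (-2))) = - (2 * W^2) := by
    have := T00 (p := p) hP
    rw [hv]
    simp only
    rw [show p - (2 * 0 + 1) = 2 * P by omega]
    rw [← hW] at this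
    field_simp
    linear_combination (-1 : ℚ) * this
  have a1 : L2 p (1 + (p : ℚ) * 1) 1 := L2.lin (one_mem (SC.Zp p))
  have a2 : L2 p (1 + (p : ℚ) * (-2)) (-2) := L2.lin (neg_mem (nmem (p := p) 2))
  have b1 := a1.ne
  have b2 := a2.ne
  have hv0' : v 0 = - (2 * W^2) * (1 + (p : ℚ) * 1)⁻¹ * (1 + (p : ℚ) * (-2))⁻¹ := by
    rw [← hv0]
    clear_value v
    clear hv0
    generalize (1 + (p : ℚ) * 1) = x at *
    generalize (1 + (p : ℚ) * (-2)) = y at *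
    field_simp
  have hv0Z : v 0 ∈ SC.Zp p := by
    rw [hv0']
    exact mul_mem (mul_mem (neg_mem (mul_mem (nmem 2) (pow_mem lW.Zp _))) a1.inv_Zp) a2.inv_Zp
  have hch := chain_sum (p := p) hP hP3 v (rhoA p) 1 (one_mem _) hv0Z (by
    intro t ht
    rw [hv]
    simp only
    obtain ⟨m, hm⟩ : ∃ m, p = 2 * t + 3 + m := ⟨p - (2 * t + 3), by omega⟩
    have h5 := T_ratio t m hm
    rw [show p - (2 * (t + 1) + 1) = m by omega, show p - (2 * t + 1) = m + 2 by omega, h5]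
    ring) (fun t ht => rhoA_est hP t ht)
  rw [← hSg, ← hH] at hch
  -- the unit
  have lK := (kap (p := p) hP (by omega)).pow 8
  have hq := qq_Zp (p := p)
  have a3 : L2 p (1 + (p : ℚ) * (-2 + 4 * qq p)) (-2 + 4 * qq p) :=
    L2.lin (add_mem (neg_mem (nmem (p := p) 2)) (mul_mem (nmem (p := p) 4) hq))
  have lU := (((lW.L2.pow 7).mul lK.inv).mul ((a1.pow 2).inv.mul (a2.pow 2).inv)).mul a3
  set U := W ^ 7 * ((4 ^ P) ^ 8)⁻¹ * (((1 + (p : ℚ) * 1) ^ 2)⁻¹ * ((1 + (p : ℚ) * -2) ^ 2)⁻¹) * (1 + p * (-2 + 4 * qq p)) with hU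
  have hU1 : U - 1 ∈ I p 2 := by
    have := lU.2
    have e : (1 + (p : ℚ) * (((7 : ℕ) : ℚ) * 0 + -(((8 : ℕ) : ℚ) * ((((2 ^ 1 : ℕ) : ℚ))⁻¹ * qq p)) +
      (-(((2 : ℕ) : ℚ) * 1) + -(((2 : ℕ) : ℚ) * -2)) + (-2 + 4 * qq p))) = 1 := by
      push_cast; ring
    rw [e] at this
    exact this
  have hch2 : p^3 * (8 * (W^3 * (((4 : ℚ)^P)^8)⁻¹ * Sg) + 4 * H) ∈ I p 5 := by
    have h6 : 8 * (W^3 * (((4 : ℚ)^P)^8)⁻¹ * Sg) + 4 * H ∈ I p 2 := by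
      have e : 8 * (W^3 * (((4 : ℚ)^P)^8)⁻¹ * Sg) + 4 * H =
        W^3 * (((4 : ℚ)^P)^8)⁻¹ * (8 * Sg + v 0 ^ 2 * H * (1 - 2 * p * 1 + 4 * p * 1 * qq p)) - 4 * H * (U - 1) := by
        rw [hv0', hU]
        field_simp
        ring
      rw [e]
      exact sub_mem (I_mul_left (mul_mem (pow_mem lW.Zp _) lK.inv_Zp) hch) (I_mul_left (mul_mem (nmem 4) hHZ) hU1)
    obtain ⟨u, hu, e⟩ := h6
    rw [e]
    exact ⟨u, hu, by ring⟩
  rw [hSeq]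
  have hfin : p^3 * (W^3 * (((4 : ℚ)^P)^8)⁻¹ * Sg) + cen - 1 ∈ I p 5 := by
    apply half_mem hP (by omega)
    apply half_mem hP (by omega)
    apply six_mem hP hP3
    have r1 := relA (p := p) hP hP3
    have r2 := relB (p := p) hP hP3
    rw [← hg, ← hH] at r1
    rw [← hh, ← hH] at r2
    have e : 6 * (2 * (2 * (p^3 * (W^3 * (((4 : ℚ)^P)^8)⁻¹ * Sg) + cen - 1))) =
      24 * (cen - (1 + (((2 : ℕ) : ℚ) * ((2 + 2 ^ 2) * g) + ((4 : ℕ) : ℚ) * (-(1 / 4) * h) + -((1 + 1 ^ 2) * g) + ((2 : ℕ) : ℚ) * -(-1 * h))))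
      + 3 * (p^3 * (8 * (W^3 * (((4 : ℚ)^P)^8)⁻¹ * Sg) + 4 * H)) + 40 * (6 * g - p^3 * H) + 4 * (6 * h + 7 * (p^3 * H)) := by
      push_cast; ring
    rw [e]
    exact add_mem (add_mem (add_mem (I_mul_left (nmem 24) lcen.2) (I_mul_left (nmem 3) hch2)) (I_mul_left (nmem 40) r1))
      (I_mul_left (nmem 4) r2)
  obtain ⟨u, hu, e⟩ := hfin
  rw [e]
  exact ⟨u, hu, by ring⟩

end

end Pool.Agent.D0H46.SE
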