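import Mathlib
import Pool.Agent.D0H46.SE.SumA

namespace Pool.Agent.D0H46.SE

open Finset Nat Pool.Agent.D0H46.SC Pool.Agent.R440

set_option linter.unusedSectionVars false

section
variable {p : ℕ} [hp : Fact p.Prime] {P : ℕ}

theorem sumB_exact (hP : p = 2 * P + 1) :
    ∑ k ∈ range (P + 1), (168 * (k : ℚ)^3 + 76 * k^2 + 14 * k + 1) * ((2 * k).choose k : ℚ)^7 / 2^(20 * k) =
    (-1)^P * (p : ℚ)^4 * Mq P ^ 3 * ∑ k ∈ range (P + 1), ((2 * k + 1 : ℕ) : ℚ) * D518.Gou.U k (P - k) ^ 2 := by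
  have h1 : ∑ k ∈ range (P + 1), (168 * (k : ℚ)^3 + 76 * k^2 + 14 * k + 1) * ((2 * k).choose k : ℚ)^7 / 2^(20 * k) =
      512 * ∑ k ∈ range (P + 1), D518.Gou.s k := by
    rw [mul_sum]
    apply sum_congr rfl
    intro k _
    unfold D518.Gou.s
    rw [pow_mul]
    have : (((2 : ℚ)^20)^k) ≠ 0 := by positivity
    field_simp
  have h2 := D518.Gou.closed P
  have h3 := D518.cb_rel P
  have e20 : ((2 : ℚ)^20)^P = 4096^P * 256^P := by rw [← mul_pow]; norm_num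
  rw [h1]
  have hp' : (p : ℚ) = 2 * P + 1 := by rw [hP]; push_cast; ring
  have h4 : ((P + 1 : ℕ) : ℚ) ^ 3 * ((2 * (P + 1)).choose (P + 1) : ℚ) ^ 3 = 8 * (p : ℚ)^3 * ((2 * P).choose P : ℚ)^3 := by
    rw [← mul_pow]
    push_cast
    rw [h3, hp']
    ring
  have h5 : ∑ k ∈ range (P + 1), D518.Gou.t k (P - k) = (p : ℚ) * 256^P / 16 * ∑ k ∈ range (P + 1), ((2 * k + 1 : ℕ) : ℚ) * D518.Gou.U k (P - k) ^ 2 := by
    rw [mul_sum]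
    apply sum_congr rfl
    intro k hk
    have hk := mem_range.mp hk
    unfold D518.Gou.t D518.Gou.X
    rw [show k + (P - k) = P by omega, ← hP, mul_pow]
    have : (((16 : ℚ)^P)^2) = 256^P := by rw [← pow_mul, mul_comm, pow_mul]; norm_num
    rw [this]
    ring
  rw [h5, mul_assoc 2, h4, e20] at h2
  have z1 : (4096 : ℚ)^P ≠ 0 := by positivity
  have z2 : (256 : ℚ)^P ≠ 0 := by positivity
  have h6 : (512 : ℚ) * ∑ k ∈ range (P + 1), D518.Gou.s k = (p : ℚ)^4 * ((2 * P).choose P : ℚ)^3 / 4096^P * ∑ k ∈ range (P + 1), ((2 * k + 1 : ℕ) : ℚ) * D518.Gou.U k (P - k) ^ 2 := by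
    set S1 := ∑ k ∈ range (P + 1), D518.Gou.s k
    set S2 := ∑ k ∈ range (P + 1), ((2 * k + 1 : ℕ) : ℚ) * D518.Gou.U k (P - k) ^ 2
    generalize ((2 * P).choose P : ℚ) = C at *
    generalize (4096 : ℚ)^P = A1 at *
    generalize (256 : ℚ)^P = A2 at *
    have : A2 * (A1 * (512 * S1)) = A2 * ((p : ℚ)^4 * C^3 * S2) := by
      linear_combination h2
    have h7 := mul_left_cancel₀ z2 this
    field_simp
    linear_combination h7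
  rw [h6]
  unfold Mq
  have e1 : ((-1 : ℚ)^P)^4 = 1 := by rw [← pow_mul, mul_comm, pow_mul]; norm_num
  have e2 : ((16 : ℚ)^P)^3 = 4096^P := by rw [← pow_mul, mul_comm, pow_mul]; norm_num
  rw [div_pow, mul_pow, e2]
  have e3 : (-1 : ℚ)^P * (p : ℚ)^4 * (((-1 : ℚ)^P)^3 * ((2 * P).choose P : ℚ)^3 / 4096^P) =
    ((-1 : ℚ)^P)^4 * ((p : ℚ)^4 * ((2 * P).choose P : ℚ)^3 / 4096^P) := by ring
  rw [e3, e1, one_mul]

theorem hg_prod (n : ℕ) : hg ((P : ℤ) + 1) * ∏ i ∈ range n, (1 + (P + 1/2 : ℚ) * ((i + 1 : ℕ) : ℚ)⁻¹) = hg ((P : ℤ) + 1 + n) / (n ! : ℚ) := by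
  induction n with
  | zero => simp
  | succ n ih =>
    rw [prod_range_succ, ← mul_assoc, ih]
    have h1 : hg ((P : ℤ) + 1 + (n + 1 : ℕ)) = ((P : ℚ) + 1 + n + 1/2) * hg ((P : ℤ) + 1 + n) := by
      rw [show (P : ℤ) + 1 + (n + 1 : ℕ) = ((P : ℤ) + 1 + n) + 1 by push_cast; ring, hg_step]
      push_cast
      ring
    rw [h1, Nat.factorial_succ]
    have z1 : (n ! : ℚ) ≠ 0 := by positivity
    have z2 : ((n : ℚ) + 1) ≠ 0 := by positivity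
    push_cast
    field_simp
    ring

theorem UP0 (hP : p = 2 * P + 1) : ((p : ℚ) * D518.Gou.U P 0)^2 = PiQ p P (1/2) ^ 2 := by
  have h1 := hg_prod (P := P) (2 * P)
  have h2 : PiQ p P (1/2) = ∏ i ∈ range (2 * P), (1 + (P + 1/2 : ℚ) * ((i + 1 : ℕ) : ℚ)⁻¹) := by
    unfold PiQ
    apply prod_congr rfl
    intro i _
    rw [hP]
    push_cast
    ring
  rw [← h2, show (P : ℤ) + 1 + (2 * P : ℕ) = 3 * (P : ℤ) + (0 : ℕ) + 1 by push_cast; ring] at h1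
  have h3 : hg (((0 : ℕ) : ℤ) - P - 1) * hg ((P : ℤ) + 1) = (-1)^(P+1) := by
    rw [show ((0 : ℕ) : ℤ) - P - 1 = -((P + 1 : ℕ) : ℤ) by push_cast; ring,
      show (P : ℤ) + 1 = ((P + 1 : ℕ) : ℤ) by push_cast; ring, hg_neg, hg_nat]
    have z1 : ((P + 1)! : ℚ) ≠ 0 := by positivity
    have z2 : ((2 * (P + 1))! : ℚ) ≠ 0 := by positivity
    have z3 : (4 : ℚ)^(P+1) ≠ 0 := by positivity
    rw [show (-4 : ℚ)^(P+1) = (-1)^(P+1) * 4^(P+1) by rw [← mul_pow]; norm_num]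
    field_simp
  unfold D518.Gou.U
  have h4 : ((2 * P + 0 + 1)! : ℚ) = p * ((2 * P)! : ℚ) := by
    rw [show 2 * P + 0 + 1 = 2 * P + 1 by ring, Nat.factorial_succ, hP]; push_cast; ring
  rw [h4, Nat.factorial_zero]
  have hp0 : (p : ℚ) ≠ 0 := by exact_mod_cast hp.out.ne_zero
  have z1 : ((2 * P)! : ℚ) ≠ 0 := by positivity
  have h5 : hg (3 * (P : ℤ) + (0 : ℕ) + 1) = hg ((P : ℤ) + 1) * PiQ p P (1/2) * ((2 * P)! : ℚ) := by
    rw [h1]; field_simp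
  rw [h5]
  have h6 : (p : ℚ) * (hg ((P : ℤ) + 1) * PiQ p P (1 / 2) * ((2 * P)! : ℚ) * hg (((0 : ℕ) : ℤ) - P - 1) / (p * ((2 * P)! : ℚ) * ((1 : ℕ) : ℚ)))
    = (hg (((0 : ℕ) : ℤ) - P - 1) * hg ((P : ℤ) + 1)) * PiQ p P (1/2) := by
    push_cast
    field_simp
  rw [h6, h3, mul_pow, ← pow_mul, mul_comm (P + 1) 2, pow_mul]
  norm_num

theorem U00 (hP : p = 2 * P + 1) (hP1 : 1 ≤ P) : D518.Gou.U 0 P * ((p - 2) * (p + 1)) = 2 * p * (Mq P)^2 * (4^P)^2 := by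
  unfold D518.Gou.U
  obtain ⟨Q, hQ⟩ : ∃ Q, P = Q + 1 := ⟨P - 1, by omega⟩
  have h1 : hg (3 * ((0 : ℕ) : ℤ) + P + 1) = ((P : ℚ) + 1/2) * hg (P : ℤ) := by
    rw [show 3 * ((0 : ℕ) : ℤ) + P + 1 = (P : ℤ) + 1 by push_cast; ring, hg_step]; push_cast; ring
  have h2 : hg (P : ℤ) = ((P : ℚ) - 1/2) * hg ((P : ℤ) - ((0 : ℕ) : ℤ) - 1) := by
    rw [show (P : ℤ) - ((0 : ℕ) : ℤ) - 1 = (P : ℤ) - 1 by push_cast; ring]
    have := hg_step ((P : ℤ) - 1)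
    rw [show (P : ℤ) - 1 + 1 = (P : ℤ) by ring] at this
    rw [this]; push_cast; ring
  have h3 : hg (P : ℤ) = ((2 * P)! : ℚ) / (4 ^ P * P !) := hg_nat P
  have h4 : ((2 * P).choose P : ℚ) * (P ! : ℚ) * (P ! : ℚ) = ((2 * P)! : ℚ) := by
    have := Nat.choose_mul_factorial_mul_factorial (n := 2 * P) (k := P) (by omega)
    rw [show 2 * P - P = P by omega] at this
    exact_mod_cast this
  have hp' : (p : ℚ) = 2 * P + 1 := by rw [hP]; push_cast; ring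
  have f1 : ((2 * 0 + P + 1)! : ℚ) = (P + 1) * (P ! : ℚ) := by
    rw [show 2 * 0 + P + 1 = P + 1 by ring, Nat.factorial_succ]; push_cast; ring
  rw [f1, h1]
  have z0 : ((P : ℚ) - 1/2) ≠ 0 := by
    have : (1 : ℚ) ≤ P := by exact_mod_cast hP1
    linarith
  have h5 : hg ((P : ℤ) - ((0 : ℕ) : ℤ) - 1) = hg (P : ℤ) / ((P : ℚ) - 1/2) := by
    rw [eq_div_iff z0, h2]; ring
  rw [h5, h3, ← h4, hp']
  unfold Mq
  have e : ((-1 : ℚ)^P)^2 = 1 := by rw [← pow_mul, mul_comm, pow_mul]; norm_num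
  have e2 : (16 : ℚ)^P = ((4 : ℚ)^P)^2 := by rw [← pow_mul, mul_comm, pow_mul]; norm_num
  rw [div_pow, mul_pow, e, e2]
  have z1 : (P ! : ℚ) ≠ 0 := by positivity
  have z2 : (4 : ℚ)^P ≠ 0 := by positivity
  have z3 : ((P : ℚ) + 1) ≠ 0 := by positivity
  have z4 : (2 * (P : ℚ) - 1) ≠ 0 := by
    intro h; apply z0; linarith
  generalize (P ! : ℚ) = A1 at *
  generalize (4 : ℚ)^P = A2 at *
  generalize ((2 * P).choose P : ℚ) = A3 at *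
  have e3 : (P : ℚ) - 1/2 = (2 * P - 1) / 2 := by ring
  have e4 : 2 * (P : ℚ) + 1 - 2 = 2 * P - 1 := by ring
  have e5 : 2 * (P : ℚ) + 1 + 1 = 2 * (P + 1) := by ring
  have e6 : (P : ℚ) + 1/2 = (2 * P + 1) / 2 := by ring
  rw [e3, e4, e5, e6]
  generalize 2 * (P : ℚ) - 1 = B1 at *
  generalize (P : ℚ) + 1 = B2 at *
  generalize 2 * (P : ℚ) + 1 = B3 at *
  field_simp

/-- `ρ` of part B -/
def rhoB (p t : ℕ) : ℚ := (p + 2 * (2 * t + 1)) * (p + 2 * (2 * t + 2)) * (p - (2 * t + 1)) /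
  ((p - 2 * (2 * t + 2)) * (p - 2 * (2 * t + 3)) * (p + (2 * t + 3)))

theorem odd_ne (hP : p = 2 * P + 1) (a : ℤ) : (p : ℚ) - 2 * a ≠ 0 := by
  intro h
  have : (p : ℤ) - 2 * a = 0 := by exact_mod_cast h
  omega

theorem U_ratio (hP : p = 2 * P + 1) (k m : ℕ) (h : P = k + 1 + m) :
    D518.Gou.U (k + 1) m = D518.Gou.U k (m + 1) * rhoB p k := by
  unfold D518.Gou.U rhoB
  have g1 : hg (3 * ((k + 1 : ℕ) : ℤ) + m + 1) = (3 * (k : ℚ) + m + 7/2) * (3 * (k : ℚ) + m + 5/2) * hg (3 * (k : ℤ) + ((m + 1 : ℕ) : ℤ) + 1) := by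
    rw [show 3 * ((k + 1 : ℕ) : ℤ) + m + 1 = (3 * (k : ℤ) + ((m + 1 : ℕ) : ℤ) + 1) + 2 by push_cast; ring, D518.Gou.hg2]
    push_cast
    ring
  have g2 : hg (((m + 1 : ℕ) : ℤ) - k - 1) = ((m : ℚ) - k - 1/2) * ((m : ℚ) - k - 3/2) * hg ((m : ℤ) - ((k + 1 : ℕ) : ℤ) - 1) := by
    rw [show ((m + 1 : ℕ) : ℤ) - k - 1 = ((m : ℤ) - ((k + 1 : ℕ) : ℤ) - 1) + 2 by push_cast; ring, D518.Gou.hg2]
    push_cast
    ring
  have f1 : ((2 * (k + 1) + m + 1)! : ℚ) = (2 * k + m + 3) * ((2 * k + m + 2)! : ℚ) := by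
    rw [show 2 * (k + 1) + m + 1 = (2 * k + m + 2) + 1 by ring, Nat.factorial_succ]; push_cast; ring
  have f2 : ((m + 1)! : ℚ) = (m + 1) * (m ! : ℚ) := by
    rw [Nat.factorial_succ]; push_cast; ring
  rw [g1, g2, f1, f2, show 2 * k + (m + 1) + 1 = 2 * k + m + 2 by ring]
  have y1 := odd_ne (p := p) hP (2 * k + 2)
  have y2 := odd_ne (p := p) hP (2 * k + 3)
  push_cast at y1 y2
  have e : (p : ℚ) = 2 * k + 3 + 2 * m := by rw [hP, h]; push_cast; ring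
  rw [e] at y1 y2 ⊢
  have z1 : ((2 * k + m + 2)! : ℚ) ≠ 0 := by positivity
  have z2 : (m ! : ℚ) ≠ 0 := by positivity
  have z3 : ((m : ℚ) + 1) ≠ 0 := by positivity
  have z4 : (2 * (k : ℚ) + m + 3) ≠ 0 := by positivity
  generalize ((2 * k + m + 2)! : ℚ) = A1 at *
  generalize (m ! : ℚ) = A2 at *
  generalize hg (3 * (k : ℤ) + ((m + 1 : ℕ) : ℤ) + 1) = A3 at *
  generalize hg ((m : ℤ) - ((k + 1 : ℕ) : ℤ) - 1) = A4 at *
  have e1 : (m : ℚ) - k - 1/2 = (2 * k + 3 + 2 * m - 2 * (2 * k + 2)) / 2 := by ring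
  have e2 : (m : ℚ) - k - 3/2 = (2 * k + 3 + 2 * m - 2 * (2 * k + 3)) / 2 := by ring
  have e3 : (2 * (k : ℚ) + 3 + 2 * m + (2 * k + 3)) = 2 * (2 * k + m + 3) := by ring
  have e4 : (2 * (k : ℚ) + 3 + 2 * m - (2 * k + 1)) = 2 * (m + 1) := by ring
  have e5 : (2 * (k : ℚ) + 3 + 2 * m + 2 * (2 * k + 1)) = 2 * (3 * k + m + 5/2) := by ring
  have e6 : (2 * (k : ℚ) + 3 + 2 * m + 2 * (2 * k + 2)) = 2 * (3 * k + m + 7/2) := by ring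
  rw [e1, e2, e3, e4, e5, e6]
  generalize (2 * (k : ℚ) + 3 + 2 * m - 2 * (2 * k + 2)) = B1 at *
  generalize (2 * (k : ℚ) + 3 + 2 * m - 2 * (2 * k + 3)) = B2 at *
  generalize (2 * (k : ℚ) + m + 3) = B3 at *
  generalize (3 * (k : ℚ) + m + 5/2) = B4 at *
  generalize (3 * (k : ℚ) + m + 7/2) = B5 at *
  field_simp

theorem rhoB_est (hP : p = 2 * P + 1) (t : ℕ) (ht : t + 1 < P) :
    rhoB p t * ((2 * t + 3 : ℕ) : ℚ)^2 + ((2 * t + 1 : ℕ) : ℚ)^2 * (1 + p * (- ((2^1 : ℕ) : ℚ)⁻¹) *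
      (((2 * t + 1 : ℕ) : ℚ)⁻¹ + ((2 * t + 3 : ℕ) : ℚ)⁻¹ - 2 * ((2 * t + 2 : ℕ) : ℚ)⁻¹)) ∈ I p 2 := by
  have n0 : ((2^1 : ℕ) : ℚ)⁻¹ ∈ SC.Zp p := inv2 hP (by omega) 1
  have n1 : ((2 * t + 1 : ℕ) : ℚ)⁻¹ ∈ SC.Zp p := SC.inv_Zp (nd (by omega) (by omega))
  have n2 : ((2 * t + 2 : ℕ) : ℚ)⁻¹ ∈ SC.Zp p := SC.inv_Zp (nd (by omega) (by omega))
  have n3 : ((2 * t + 3 : ℕ) : ℚ)⁻¹ ∈ SC.Zp p := SC.inv_Zp (nd (by omega) (by omega))
  have hZ : ((2 * t + 1 : ℕ) : ℚ) ∈ SC.Zp p := natCast_Zp _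
  have z1 : ((2 * t + 1 : ℕ) : ℚ) ≠ 0 := by positivity
  have z2 : ((2 * t + 2 : ℕ) : ℚ) ≠ 0 := by positivity
  have z3 : ((2 * t + 3 : ℕ) : ℚ) ≠ 0 := by positivity
  have e1 : ((2 * t + 1 : ℕ) : ℚ) = 2 * t + 1 := by push_cast; ring
  have e2 : ((2 * t + 2 : ℕ) : ℚ) = 2 * t + 2 := by push_cast; ring
  have e3 : ((2 * t + 3 : ℕ) : ℚ) = 2 * t + 3 := by push_cast; ring
  have w : ((2^1 : ℕ) : ℚ)⁻¹ = 1/2 := by norm_num
  rw [w] at n0 ⊢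
  unfold rhoB
  rw [← e1, ← e2, ← e3]
  generalize ((2 * t + 1 : ℕ) : ℚ) = a at *
  generalize ((2 * t + 2 : ℕ) : ℚ) = b at *
  generalize ((2 * t + 3 : ℕ) : ℚ) = c at *
  have l1 := L2.lin (p := p) (mul_mem n0 n1)
  have l2 := L2.lin (p := p) (mul_mem n0 n2)
  have l3 := L2.lin (p := p) (neg_mem n1)
  have l4 := L2.lin (p := p) (neg_mem (mul_mem n0 n2))
  have l5 := L2.lin (p := p) (neg_mem (mul_mem n0 n3))
  have l6 := L2.lin (p := p) n3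
  have l := ((((l1.mul l2).mul l3).mul l4.inv).mul l5.inv).mul l6.inv
  have h := l.2
  have i4 := l4.ne
  have i5 := l5.ne
  have i6 := l6.ne
  have j4 : ((p : ℚ) - 2 * b) ≠ 0 := by
    intro hh; apply i4
    have : (p : ℚ) = 2 * b := by linarith
    rw [this]; field_simp; ring
  have j5 : ((p : ℚ) - 2 * c) ≠ 0 := by
    intro hh; apply i5
    have : (p : ℚ) = 2 * c := by linarith
    rw [this]; field_simp; ring
  have j6 : ((p : ℚ) + c) ≠ 0 := by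
    intro hh; apply i6
    have : (p : ℚ) = -c := by linarith
    rw [this]; field_simp; ring
  have e : (p + 2 * a) * (p + 2 * b) * (p - a) / ((p - 2 * b) * (p - 2 * c) * (p + c)) * c^2 + a^2 * (1 + p * -(1/2) * (a⁻¹ + c⁻¹ - 2 * b⁻¹)) =
    (- a^2) * ((1 + p * (1/2 * a⁻¹)) * (1 + p * (1/2 * b⁻¹)) * (1 + p * -a⁻¹) * (1 + p * -(1/2 * b⁻¹))⁻¹ * (1 + p * -(1/2 * c⁻¹))⁻¹ * (1 + p * c⁻¹)⁻¹
      - (1 + p * (1/2 * a⁻¹ + 1/2 * b⁻¹ + -a⁻¹ + - -(1/2 * b⁻¹) + - -(1/2 * c⁻¹) + -c⁻¹))) := by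
    have k4 : (1 + p * -(1/2 * b⁻¹))⁻¹ = - (2 * b) / (p - 2 * b) := by
      rw [inv_eq_iff_eq_inv, inv_div]
      field_simp
      ring
    have k5 : (1 + p * -(1/2 * c⁻¹))⁻¹ = - (2 * c) / (p - 2 * c) := by
      rw [inv_eq_iff_eq_inv, inv_div]
      field_simp
      ring
    have k6 : (1 + p * c⁻¹)⁻¹ = c / (p + c) := by
      rw [inv_eq_iff_eq_inv, inv_div]
      field_simp
      ring
    rw [k4, k5, k6]
    field_simp
    ring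
  rw [e]
  exact I_mul_left (neg_mem (pow_mem hZ _)) h

end

end Pool.Agent.D0H46.SE
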