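import Mathlib
import Pool.Agent.D0H46.SE.PartB

namespace Pool.Agent.D0H46.SE

open Finset Nat Pool.Agent.D0H46.SC Pool.Agent.R440

set_option linter.unusedSectionVars false

section
variable {p : ℕ} [hp : Fact p.Prime] {P : ℕ}

theorem partB (hP : p = 2 * P + 1) (hP3 : 3 ≤ P) :
    ∑ k ∈ range (P + 1), (168 * (k : ℚ)^3 + 76 * k^2 + 14 * k + 1) * ((2 * k).choose k : ℚ)^7 / 2^(20 * k) -
      (-1)^P * (p : ℚ)^3 ∈ I p 8 := by
  have hp0 : (p : ℚ) ≠ 0 := by exact_mod_cast hp.out.ne_zero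
  have hex := sumB_exact (p := p) hP
  set S := ∑ k ∈ range (P + 1), (168 * (k : ℚ)^3 + 76 * k^2 + 14 * k + 1) * ((2 * k).choose k : ℚ)^7 / 2^(20 * k) with hS
  rw [sum_range_succ, Nat.sub_self, ← hP] at hex
  set v : ℕ → ℚ := fun t => D518.Gou.U t (P - t) / p with hv
  set g : ℚ := p * Hq 1 (2 * P) with hg
  set h : ℚ := p^2 * Hq 2 P with hh
  set H : ℚ := Hq 3 P with hH
  have hHZ : H ∈ SC.Zp p := Hq_Zp 3 P (by omega)
  set Sg : ℚ := ∑ t ∈ range P, ((2 * t + 1 : ℕ) : ℚ) * v t ^ 2 with hSg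
  have e1 : ∑ k ∈ range P, ((2 * k + 1 : ℕ) : ℚ) * D518.Gou.U k (P - k) ^ 2 = p^2 * Sg := by
    rw [hSg, mul_sum]
    apply sum_congr rfl
    intro k _
    rw [hv]
    field_simp
  rw [e1] at hex
  have h4 : (1/4 : ℚ) ∈ SC.Zp p := by
    have := inv2 (p := p) hP (by omega) 2
    have e : (((2^2 : ℕ) : ℚ))⁻¹ = 1/4 := by norm_num
    rwa [e] at this
  have h2 : (1/2 : ℚ) ∈ SC.Zp p := by
    have := inv2 (p := p) hP (by omega) 1
    have e : (((2^1 : ℕ) : ℚ))⁻¹ = 1/2 := by norm_num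
    rwa [e] at this
  have lW : Lg p (PiQ p P 1) ((1 + 1^2) * g) := PiQ_lg hP hP3 1 (one_mem _)
  have l2 : Lg p (PiQ p P (1/2)) ((1/2 + (1/2)^2) * g) := PiQ_lg hP hP3 (1/2) h2
  have lA : Lg p (PrQ p P (1/4)) (- (1/4) * h) := PrQ_lg hP hP3 _ h4
  have hMA := A_eq (p := p) hP
  have hX := UP0 (p := p) hP
  set W := PiQ p P 1 with hW
  set Pi2 := PiQ p P (1/2) with hPi2
  set A := PrQ p P (1/4) with hA
  have W0 := lW.ne
  have lM' := lA.mul lW.inv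
  have hMe : Mq P = A * W⁻¹ := by
    rw [hMA]; field_simp
  rw [← hMe] at lM'
  set M := Mq P with hM
  have K0 : ((4 : ℚ)^P) ≠ 0 := by positivity
  have lcen := (lM'.pow 3).mul (l2.pow 2)
  set cen := M^3 * Pi2^2 with hcen
  have hSeq : S - (-1)^P * (p : ℚ)^3 = p^3 * ((-1)^P * (p^3 * (M^3 * Sg) + cen - 1)) := by
    have e2 : S = (-1)^P * ((p : ℚ)^6 * M^3 * Sg + p^3 * M^3 * ((p : ℚ) * D518.Gou.U P 0)^2) := by
      rw [hex]; ring
    rw [e2, hX, hcen]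
    ring
  have hv0 : v 0 * ((1 + p * (-(1/2))) * (1 + p * 1)) = - (M^2 * (4^P)^2) := by
    have := U00 (p := p) hP (by omega)
    rw [hv]
    simp only
    rw [show P - 0 = P by omega]
    rw [← hM] at this
    field_simp
    linear_combination (-1 : ℚ) * this
  have a1 : L2 p (1 + (p : ℚ) * (-(1/2))) (-(1/2)) := L2.lin (neg_mem h2)
  have a2 : L2 p (1 + (p : ℚ) * 1) 1 := L2.lin (one_mem (SC.Zp p))
  have b1 := a1.ne
  have b2 := a2.ne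
  have hv0' : v 0 = - (M^2 * (4^P)^2) * (1 + (p : ℚ) * (-(1/2)))⁻¹ * (1 + (p : ℚ) * 1)⁻¹ := by
    rw [← hv0]
    clear_value v
    clear hv0
    generalize (1 + (p : ℚ) * 1) = x at *
    generalize (1 + (p : ℚ) * (-(1/2))) = y at *
    field_simp
  have hMZ := lM'.Zp
  have lk := kap (p := p) hP (by omega)
  have hv0Z : v 0 ∈ SC.Zp p := by
    rw [hv0']
    exact mul_mem (mul_mem (neg_mem (mul_mem (pow_mem hMZ _) (pow_mem lk.Zp _))) a1.inv_Zp) a2.inv_Zp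
  have n0 : ((2^1 : ℕ) : ℚ)⁻¹ ∈ SC.Zp p := inv2 hP (by omega) 1
  have hch := chain_sum (p := p) hP hP3 v (rhoB p) (-((2^1 : ℕ) : ℚ)⁻¹) (neg_mem n0) hv0Z (by
    intro t ht
    rw [hv]
    simp only
    obtain ⟨m, hm⟩ : ∃ m, P = t + 1 + m := ⟨P - (t + 1), by omega⟩
    have h5 := U_ratio hP t m hm
    rw [show P - (t + 1) = m by omega, show P - t = m + 1 by omega, h5]
    ring) (fun t ht => rhoB_est hP t ht)
  rw [← hSg, ← hH] at hch
  have lK := lk.pow 4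
  have hq := qq_Zp (p := p)
  have a3 : L2 p (1 + (p : ℚ) * (1 - 2 * qq p)) (1 - 2 * qq p) :=
    L2.lin (sub_mem (one_mem _) (mul_mem (nmem (p := p) 2) hq))
  have lU := (((lM'.L2.pow 7).mul lK).mul ((a1.pow 2).inv.mul (a2.pow 2).inv)).mul a3
  set U := M ^ 7 * (4 ^ P) ^ 4 * (((1 + (p : ℚ) * (-(1/2))) ^ 2)⁻¹ * ((1 + (p : ℚ) * 1) ^ 2)⁻¹) * (1 + p * (1 - 2 * qq p)) with hU
  have hU1 : U - 1 ∈ I p 2 := by
    have := lU.2
    have e : (1 + (p : ℚ) * (((7 : ℕ) : ℚ) * 0 + ((4 : ℕ) : ℚ) * ((((2 ^ 1 : ℕ) : ℚ))⁻¹ * qq p) +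
      (-(((2 : ℕ) : ℚ) * (-(1/2))) + -(((2 : ℕ) : ℚ) * 1)) + (1 - 2 * qq p))) = 1 := by
      push_cast; ring
    rw [e] at this
    exact this
  have hch2 : p^3 * (8 * (M^3 * Sg) + H) ∈ I p 5 := by
    have h6 : 8 * (M^3 * Sg) + H ∈ I p 2 := by
      have e : 8 * (M^3 * Sg) + H =
        M^3 * (8 * Sg + v 0 ^ 2 * H * (1 - 2 * p * (-((2^1 : ℕ) : ℚ)⁻¹) + 4 * p * (-((2^1 : ℕ) : ℚ)⁻¹) * qq p)) - H * (U - 1) := by
        rw [hv0', hU]
        push_cast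
        field_simp
        ring
      rw [e]
      exact sub_mem (I_mul_left (pow_mem hMZ _) hch) (I_mul_left hHZ hU1)
    obtain ⟨u, hu, e⟩ := h6
    rw [e]
    exact ⟨u, hu, by ring⟩
  rw [hSeq]
  have hfin : p^3 * (M^3 * Sg) + cen - 1 ∈ I p 5 := by
    apply half_mem hP (by omega)
    apply half_mem hP (by omega)
    apply six_mem hP hP3
    have r1 := relA (p := p) hP hP3
    have r2 := relB (p := p) hP hP3
    rw [← hg, ← hH] at r1
    rw [← hh, ← hH] at r2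
    have e : 6 * (2 * (2 * (p^3 * (M^3 * Sg) + cen - 1))) =
      24 * (cen - (1 + (((3 : ℕ) : ℚ) * (-(1 / 4) * h + -((1 + 1 ^ 2) * g)) + ((2 : ℕ) : ℚ) * ((1/2 + (1/2) ^ 2) * g))))
      + 3 * (p^3 * (8 * (M^3 * Sg) + H)) - 18 * (6 * g - p^3 * H) - 3 * (6 * h + 7 * (p^3 * H)) := by
      push_cast; ring
    rw [e]
    exact sub_mem (sub_mem (add_mem (I_mul_left (nmem 24) lcen.2) (I_mul_left (nmem 3) hch2)) (I_mul_left (nmem 18) r1))
      (I_mul_left (nmem 3) r2)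
  obtain ⟨u, hu, e⟩ := hfin
  rw [e]
  exact ⟨(-1)^P * u, mul_mem (pow_mem (neg_mem (one_mem _)) _) hu, by ring⟩

end

end Pool.Agent.D0H46.SE
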